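import Pool.Agent.R544.CG.RS

/-!
# Clique graphs among split graphs with stable side of degree 3: a characterisation
-/

set_option autoImplicit false

namespace Pool.Agent.R544.CG

variable {V : Type}

/-- `K` is complete, its complement is stable, and all the vertices of the complement have degree
3. -/
structure Spl (G : SimpleGraph V) (K : Set V) : Prop where
  cl : ∀ x ∈ K, ∀ y ∈ K, x ≠ y → G.Adj x y
  st : ∀ s ∉ K, ∀ t ∉ K, ¬ G.Adj s t
  dg : ∀ s ∉ K, ∃ x y z, x ≠ y ∧ y ≠ z ∧ x ≠ z ∧ ∀ v, G.Adj s v ↔ v = x ∨ v = y ∨ v = z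

/-- Two different vertices have a common neighbour in the stable part. -/
def Sh (G : SimpleGraph V) (K : Set V) (x y : V) : Prop := x ≠ y ∧ ∃ s ∉ K, G.Adj s x ∧ G.Adj s y

/-- The neighbours of `s` are the three vertices. -/
def Nb (G : SimpleGraph V) (K : Set V) (s x y z : V) : Prop :=
  s ∉ K ∧ x ≠ y ∧ y ≠ z ∧ x ≠ z ∧ ∀ v, G.Adj s v ↔ v = x ∨ v = y ∨ v = z

theorem Nb.perm1 {G : SimpleGraph V} {K : Set V} {s x y z : V} (h : Nb G K s x y z) :
    Nb G K s y x z :=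
  ⟨h.1, h.2.1.symm, h.2.2.2.1, h.2.2.1, fun v => by rw [h.2.2.2.2 v]; tauto⟩

theorem Nb.perm2 {G : SimpleGraph V} {K : Set V} {s x y z : V} (h : Nb G K s x y z) :
    Nb G K s x z y :=
  ⟨h.1, h.2.2.2.1, h.2.2.1.symm, h.2.1, fun v => by rw [h.2.2.2.2 v]; tauto⟩

/-- The condition on a set of dropped pairs. -/
def Drop (G : SimpleGraph V) (K : Set V) (D : V → V → Prop) : Prop :=
  (∀ x y, D x y → D y x) ∧ (∀ s x y z, Nb G K s x y z → ¬ (D x y ∧ D y z)) ∧
  ∀ x y z, Sh G K x y → Sh G K y z → Sh G K x z → D x y ∨ D y z ∨ D x z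

theorem Spl.nb_of {G : SimpleGraph V} {K : Set V} (hS : Spl G K) {s x y : V} (hs : s ∉ K)
    (hx : G.Adj s x) (hy : G.Adj s y) (hxy : x ≠ y) : ∃ z, Nb G K s x y z := by
  obtain ⟨a, b, c, hab, hbc, hac, h⟩ := hS.dg s hs
  rcases (h x).1 hx with rfl | rfl | rfl <;> rcases (h y).1 hy with rfl | rfl | rfl
  · exact absurd rfl hxy
  · exact ⟨c, hs, hab, hbc, hac, h⟩
  · exact ⟨b, hs, hac, hbc.symm, hab, fun v => by rw [h v]; tauto⟩
  · exact ⟨c, hs, hab.symm, hac, hbc, fun v => by rw [h v]; tauto⟩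
  · exact absurd rfl hxy
  · exact ⟨a, hs, hbc, hac.symm, hab.symm, fun v => by rw [h v]; tauto⟩
  · exact ⟨b, hs, hac.symm, hab, hbc.symm, fun v => by rw [h v]; tauto⟩
  · exact ⟨a, hs, hbc.symm, hab.symm, hac.symm, fun v => by rw [h v]; tauto⟩
  · exact absurd rfl hxy

/-- The pairs of two three-element sets of neighbours of the same vertex meet. -/
theorem pairs_meet {G : SimpleGraph V} {K : Set V} (hS : Spl G K) {s x y x' y' : V} (hs : s ∉ K)
    (hx : G.Adj s x) (hy : G.Adj s y) (hxy : x ≠ y) (hx' : G.Adj s x') (hy' : G.Adj s y')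
    (hxy' : x' ≠ y') : x = x' ∨ x = y' ∨ y = x' ∨ y = y' := by
  obtain ⟨z, h⟩ := hS.nb_of hs hx hy hxy
  rcases (h.2.2.2.2 x').1 hx' with rfl | rfl | rfl
  · exact Or.inl rfl
  · exact Or.inr (Or.inr (Or.inl rfl))
  · rcases (h.2.2.2.2 y').1 hy' with rfl | rfl | rfl
    · exact Or.inr (Or.inl rfl)
    · exact Or.inr (Or.inr (Or.inr rfl))
    · exact absurd rfl hxy'

theorem rs_of_drop {G : SimpleGraph V} {K : Set V} (hS : Spl G K) {D : V → V → Prop}
    (hD : Drop G K D) : ∃ F, RSFamily G F := by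
  obtain ⟨hsym, h1, h2⟩ := hD
  refine ⟨{A | A = K ∨ ∃ s x y, s ∉ K ∧ G.Adj s x ∧ G.Adj s y ∧ x ≠ y ∧ ¬ D x y ∧
    A = {v | v = s ∨ v = x ∨ v = y}}, ?_, ?_, ?_⟩
  · rintro A (rfl | ⟨s, x, y, hs, hx, hy, hxy, hd, rfl⟩)
    · exact fun x hx y hy h => hS.cl x hx y hy h
    · have hxK : x ∈ K := by
        by_contra h
        exact hS.st _ hs _ h hx
      have hyK : y ∈ K := by
        by_contra h
        exact hS.st _ hs _ h hy
      have hadj := hS.cl x hxK y hyK hxy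
      rintro u (rfl | rfl | rfl) v (rfl | rfl | rfl) hne
      · exact absurd rfl hne
      · exact hx
      · exact hy
      · exact hx.symm
      · exact absurd rfl hne
      · exact hadj
      · exact hy.symm
      · exact hadj.symm
      · exact absurd rfl hne
  · have key : ∀ s ∉ K, ∀ x, G.Adj s x → ∃ y, x ≠ y ∧ G.Adj s y ∧ ¬ D x y := by
      intro s hs x hx
      obtain ⟨a, b, c, hab, hbc, hac, h⟩ := hS.dg s hs
      obtain ⟨y, hxy, hy⟩ : ∃ y, x ≠ y ∧ G.Adj s y := by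
        by_cases hxa : x = a
        · exact ⟨b, by rw [hxa]; exact hab, (h b).2 (Or.inr (Or.inl rfl))⟩
        · exact ⟨a, hxa, (h a).2 (Or.inl rfl)⟩
      obtain ⟨z, hz⟩ := hS.nb_of hs hx hy hxy
      by_cases hd : D x y
      · refine ⟨z, hz.2.2.2.1, (hz.2.2.2.2 z).2 (Or.inr (Or.inr rfl)), fun hd' => ?_⟩
        exact h1 s y x z hz.perm1 ⟨hsym _ _ hd, hd'⟩
      · exact ⟨y, hxy, hy, hd⟩
    intro u v huv
    by_cases hu : u ∈ K
    · by_cases hv : v ∈ K
      · exact ⟨K, Or.inl rfl, hu, hv⟩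
      · obtain ⟨y, h3, h4, h5⟩ := key v hv u huv.symm
        exact ⟨_, Or.inr ⟨v, u, y, hv, huv.symm, h4, h3, h5, rfl⟩, Or.inr (Or.inl rfl), Or.inl rfl⟩
    · obtain ⟨y, h3, h4, h5⟩ := key u hu v huv
      exact ⟨_, Or.inr ⟨u, v, y, hu, huv, h4, h3, h5, rfl⟩, Or.inl rfl, Or.inr (Or.inl rfl)⟩
  · intro F' hF' hne hpw
    by_cases hK : ∀ A ∈ F', A = K
    · obtain ⟨A, hA⟩ := hne
      obtain ⟨v, hv, -⟩ := hpw A hA A hA
      refine ⟨v, fun B hB => ?_⟩
      rw [hK B hB, ← hK A hA]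
      exact hv
    · push Not at hK
      obtain ⟨A, hA, hAK⟩ := hK
      rcases hF' hA with h | ⟨s, x, y, hs, hx, hy, hxy, hd, rfl⟩
      · exact absurd h hAK
      have inK : ∀ {s v : V}, s ∉ K → G.Adj s v → v ∈ K := by
        intro s v hs hv
        by_contra h
        exact hS.st _ hs _ h hv
      -- any other set of the family which is not `K` meets the pair
      have meet : ∀ s x y s' x' y', s ∉ K → G.Adj s x → G.Adj s y → x ≠ y → s' ∉ K → G.Adj s' x' →
          G.Adj s' y' → x' ≠ y' →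
          (({v | v = s ∨ v = x ∨ v = y} : Set V) ∩ {v | v = s' ∨ v = x' ∨ v = y'}).Nonempty →
          x = x' ∨ x = y' ∨ y = x' ∨ y = y' := by
        intro s x y s' x' y' hs hx hy hxy hs' hx' hy' hxy' hne
        by_cases he : s = s'
        · subst he
          exact pairs_meet hS hs hx hy hxy hx' hy' hxy'
        · obtain ⟨v, hv1, hv2⟩ := hne
          simp only [Set.mem_ofPred_eq] at hv1 hv2
          rcases hv1 with rfl | rfl | rfl <;> rcases hv2 with rfl | rfl | rfl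
          · exact absurd rfl he
          · exact absurd (inK hs' hx') hs
          · exact absurd (inK hs' hy') hs
          · exact absurd (inK hs hx) hs'
          · exact Or.inl rfl
          · exact Or.inr (Or.inl rfl)
          · exact absurd (inK hs hy) hs'
          · exact Or.inr (Or.inr (Or.inl rfl))
          · exact Or.inr (Or.inr (Or.inr rfl))
      by_cases hx1 : ∀ B ∈ F', x ∈ B
      · exact ⟨x, hx1⟩
      by_cases hy1 : ∀ B ∈ F', y ∈ B
      · exact ⟨y, hy1⟩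
      exfalso
      push Not at hx1 hy1
      obtain ⟨B, hB, hxB⟩ := hx1
      obtain ⟨C, hC, hyC⟩ := hy1
      rcases hF' hB with rfl | ⟨s2, x2, y2, hs2, hx2, hy2, hxy2, hd2, rfl⟩
      · exact hxB (inK hs hx)
      rcases hF' hC with rfl | ⟨s3, x3, y3, hs3, hx3, hy3, hxy3, hd3, rfl⟩
      · exact hyC (inK hs hy)
      have m1 := meet _ _ _ _ _ _ hs hx hy hxy hs2 hx2 hy2 hxy2 (hpw _ hA _ hB)
      have m2 := meet _ _ _ _ _ _ hs hx hy hxy hs3 hx3 hy3 hxy3 (hpw _ hA _ hC)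
      have m3 := meet _ _ _ _ _ _ hs2 hx2 hy2 hxy2 hs3 hx3 hy3 hxy3 (hpw _ hB _ hC)
      simp only [Set.mem_ofPred_eq, not_or] at hxB hyC
      -- the second pair contains `y`
      obtain ⟨c, hc1, hc2, hc3, hc4, hc5⟩ : ∃ c, y ≠ c ∧ G.Adj s2 c ∧ G.Adj s2 y ∧ ¬ D y c ∧
          ((x2 = y ∧ y2 = c) ∨ (y2 = y ∧ x2 = c)) := by
        rcases m1 with h | h | h | h
        · exact absurd h hxB.2.1
        · exact absurd h hxB.2.2
        · subst h
          exact ⟨y2, hxy2, hy2, hx2, hd2, Or.inl ⟨rfl, rfl⟩⟩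
        · subst h
          exact ⟨x2, hxy2.symm, hx2, hy2, fun h => hd2 (hsym _ _ h), Or.inr ⟨rfl, rfl⟩⟩
      obtain ⟨d, hd1, hd2', hd3', hd4, hd5⟩ : ∃ d, x ≠ d ∧ G.Adj s3 d ∧ G.Adj s3 x ∧ ¬ D x d ∧
          ((x3 = x ∧ y3 = d) ∨ (y3 = x ∧ x3 = d)) := by
        rcases m2 with h | h | h | h
        · subst h
          exact ⟨y3, hxy3, hy3, hx3, hd3, Or.inl ⟨rfl, rfl⟩⟩
        · subst h
          exact ⟨x3, hxy3.symm, hx3, hy3, fun h => hd3 (hsym _ _ h), Or.inr ⟨rfl, rfl⟩⟩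
        · exact absurd h hyC.2.1
        · exact absurd h hyC.2.2
      have hcx : c ≠ x := by
        rintro rfl
        rcases hc5 with ⟨-, h⟩ | ⟨-, h⟩
        · exact hxB.2.2 h.symm
        · exact hxB.2.1 h.symm
      have hdy : d ≠ y := by
        rintro rfl
        rcases hd5 with ⟨-, h⟩ | ⟨-, h⟩
        · exact hyC.2.2 h.symm
        · exact hyC.2.1 h.symm
      have hcd : c = d := by
        rcases hc5 with ⟨e1, e2⟩ | ⟨e1, e2⟩ <;> rcases hd5 with ⟨e3, e4⟩ | ⟨e3, e4⟩ <;>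
          rw [e1, e2, e3, e4] at m3 <;> rcases m3 with h | h | h | h <;>
          first
          | exact h
          | exact absurd h hcx
          | exact absurd h.symm hdy
          | exact absurd h.symm hxy
          | exact absurd h hxy
      subst hcd
      rcases h2 x y c ⟨hxy, s, hs, hx, hy⟩ ⟨hc1, s2, hs2, hc3, hc2⟩ ⟨hd1, s3, hs3, hd3', hd2'⟩ with
        h | h | h
      · exact hd h
      · exact hc4 h
      · exact hd4 h

end Pool.Agent.R544.CG
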