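import Pool.Agent.R544.CG.Char

/-!
# Clique graphs among split graphs with stable side of degree 3: necessity of the condition
-/

set_option autoImplicit false

namespace Pool.Agent.R544.CG

variable {V : Type} {G : SimpleGraph V} {K : Set V} {F : Set (Set V)}

theorem Nb.mem_cases {s x y z : V} (h : Nb G K s x y z) (hF : RSFamily G F) {A : Set V}
    (hA : A ∈ F) (hs : s ∈ A) {v : V} (hv : v ∈ A) : v = s ∨ v = x ∨ v = y ∨ v = z := by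
  by_cases he : s = v
  · exact Or.inl he.symm
  · exact Or.inr ((h.2.2.2.2 v).1 (hF.1 A hA hs hv he))

theorem Nb.inK {s x y z : V} (hS : Spl G K) (h : Nb G K s x y z) : x ∈ K ∧ y ∈ K ∧ z ∈ K := by
  have key : ∀ v, G.Adj s v → v ∈ K := by
    intro v hv
    by_contra h'
    exact hS.st _ h.1 _ h' hv
  exact ⟨key _ ((h.2.2.2.2 _).2 (Or.inl rfl)), key _ ((h.2.2.2.2 _).2 (Or.inr (Or.inl rfl))),
    key _ ((h.2.2.2.2 _).2 (Or.inr (Or.inr rfl)))⟩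

/-- Helly for three sets. -/
theorem RSFamily.three (hF : RSFamily G F) {A B C : Set V} (hA : A ∈ F) (hB : B ∈ F) (hC : C ∈ F)
    {u v w : V} (h1 : u ∈ A) (h2 : u ∈ B) (h3 : v ∈ A) (h4 : v ∈ C) (h5 : w ∈ B) (h6 : w ∈ C) :
    ∃ t, t ∈ A ∧ t ∈ B ∧ t ∈ C := by
  obtain ⟨t, ht⟩ := hF.2.2 {X | X = A ∨ X = B ∨ X = C}
    (by rintro X (rfl | rfl | rfl) <;> assumption) ⟨A, Or.inl rfl⟩ (by
      rintro X (rfl | rfl | rfl) Y (rfl | rfl | rfl)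
      exacts [⟨u, h1, h1⟩, ⟨u, h1, h2⟩, ⟨v, h3, h4⟩, ⟨u, h2, h1⟩, ⟨u, h2, h2⟩, ⟨w, h5, h6⟩,
        ⟨v, h4, h3⟩, ⟨w, h6, h5⟩, ⟨w, h6, h6⟩])
  exact ⟨t, ht _ (Or.inl rfl), ht _ (Or.inr (Or.inl rfl)), ht _ (Or.inr (Or.inr rfl))⟩

/-- Helly for four sets of which the first three contain different pairs and the fourth meets all. -/
theorem RSFamily.four (hF : RSFamily G F) {A B C D : Set V} (hA : A ∈ F) (hB : B ∈ F) (hC : C ∈ F)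
    (hD : D ∈ F) {u v w a b c : V} (h1 : u ∈ A) (h2 : u ∈ B) (h3 : v ∈ A) (h4 : v ∈ C)
    (h5 : w ∈ B) (h6 : w ∈ C) (h7 : a ∈ A) (h8 : a ∈ D) (h9 : b ∈ B) (h10 : b ∈ D) (h11 : c ∈ C)
    (h12 : c ∈ D) : ∃ t, t ∈ A ∧ t ∈ B ∧ t ∈ C ∧ t ∈ D := by
  obtain ⟨t, ht⟩ := hF.2.2 {X | X = A ∨ X = B ∨ X = C ∨ X = D}
    (by rintro X (rfl | rfl | rfl | rfl) <;> assumption) ⟨A, Or.inl rfl⟩ (by
      rintro X (rfl | rfl | rfl | rfl) Y (rfl | rfl | rfl | rfl)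
      exacts [⟨u, h1, h1⟩, ⟨u, h1, h2⟩, ⟨v, h3, h4⟩, ⟨a, h7, h8⟩, ⟨u, h2, h1⟩, ⟨u, h2, h2⟩,
        ⟨w, h5, h6⟩, ⟨b, h9, h10⟩, ⟨v, h4, h3⟩, ⟨w, h6, h5⟩, ⟨w, h6, h6⟩, ⟨c, h11, h12⟩,
        ⟨a, h8, h7⟩, ⟨b, h10, h9⟩, ⟨c, h12, h11⟩, ⟨a, h8, h8⟩])
  exact ⟨t, ht _ (Or.inl rfl), ht _ (Or.inr (Or.inl rfl)), ht _ (Or.inr (Or.inr (Or.inl rfl))),
    ht _ (Or.inr (Or.inr (Or.inr rfl)))⟩

theorem Nb.pair (hS : Spl G K) (hF : RSFamily G F) {s x y z : V} (h : Nb G K s x y z) :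
    (∃ A ∈ F, s ∈ A ∧ x ∈ A ∧ z ∈ A) ∨
      ((∃ A ∈ F, s ∈ A ∧ x ∈ A ∧ y ∈ A) ∧ ∃ A ∈ F, s ∈ A ∧ y ∈ A ∧ z ∈ A) := by
  by_cases h0 : ∃ A ∈ F, s ∈ A ∧ x ∈ A ∧ z ∈ A
  · exact Or.inl h0
  right
  obtain ⟨hxK, hyK, hzK⟩ := h.inK hS
  obtain ⟨A, hA, hA1, hA2⟩ := hF.2.1 s x ((h.2.2.2.2 _).2 (Or.inl rfl))
  obtain ⟨B, hB, hB1, hB2⟩ := hF.2.1 s z ((h.2.2.2.2 _).2 (Or.inr (Or.inr rfl)))
  obtain ⟨C, hC, hC1, hC2⟩ := hF.2.1 x z (hS.cl x hxK z hzK h.2.2.2.1)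
  obtain ⟨t, htA, htB, htC⟩ := hF.three hA hB hC hA1 hB1 hA2 hC1 hB2 hC2
  rcases h.mem_cases hF hA hA1 htA with rfl | rfl | rfl | rfl
  · exact absurd ⟨C, hC, htC, hC1, hC2⟩ h0
  · exact absurd ⟨B, hB, hB1, htB, hB2⟩ h0
  · exact ⟨⟨A, hA, hA1, hA2, htA⟩, ⟨B, hB, hB1, htB, hB2⟩⟩
  · exact absurd ⟨A, hA, hA1, hA2, htA⟩ h0

/-- It is impossible that there are three sets with `s` and exactly two neighbours of `s`. -/
theorem Nb.no_three (hS : Spl G K) (hF : RSFamily G F) {s x y z w : V} (h : Nb G K s x y z)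
    (hw : w ∈ K) (hsw : ¬ G.Adj s w) {A B C : Set V} (hA : A ∈ F) (hB : B ∈ F) (hC : C ∈ F)
    (hsA : s ∈ A) (hsB : s ∈ B) (hsC : s ∈ C) (hxA : x ∈ A) (hyA : y ∈ A) (hzA : z ∉ A)
    (hyB : y ∈ B) (hzB : z ∈ B) (hxB : x ∉ B) (hxC : x ∈ C) (hzC : z ∈ C) (hyC : y ∉ C) :
    False := by
  obtain ⟨hxK, hyK, hzK⟩ := h.inK hS
  have hwx : w ≠ x := fun e => hsw ((h.2.2.2.2 _).2 (Or.inl e))
  have hwy : w ≠ y := fun e => hsw ((h.2.2.2.2 _).2 (Or.inr (Or.inl e)))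
  -- a set with two of the vertices contains `s`
  have key : ∀ D ∈ F, (∃ a ∈ A, a ∈ D) → (∃ b ∈ B, b ∈ D) → (∃ c ∈ C, c ∈ D) → s ∈ D := by
    rintro D hD ⟨a, ha, ha'⟩ ⟨b, hb, hb'⟩ ⟨c, hc, hc'⟩
    obtain ⟨t, h1, h2, h3, h4⟩ := hF.four hA hB hC hD hsA hsB hsA hsC hsB hsC ha ha' hb hb' hc hc'
    rcases h.mem_cases hF hA hsA h1 with rfl | rfl | rfl | rfl
    · exact h4
    · exact absurd h2 hxB
    · exact absurd h3 hyC
    · exact absurd h1 hzA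
  obtain ⟨P, hP, hP1, hP2⟩ := hF.2.1 w x (hS.cl w hw x hxK hwx)
  obtain ⟨Q, hQ, hQ1, hQ2⟩ := hF.2.1 w y (hS.cl w hw y hyK hwy)
  have hsP : s ∉ P := fun hsP => hsw (hF.1 P hP hsP hP1 (fun e => h.1 (e ▸ hw)))
  have hsQ : s ∉ Q := fun hsQ => hsw (hF.1 Q hQ hsQ hQ1 (fun e => h.1 (e ▸ hw)))
  have hyP : y ∉ P := fun hyP => hsP (key P hP ⟨x, hxA, hP2⟩ ⟨y, hyB, hyP⟩ ⟨x, hxC, hP2⟩)
  have hxQ : x ∉ Q := fun hxQ => hsQ (key Q hQ ⟨x, hxA, hxQ⟩ ⟨y, hyB, hQ2⟩ ⟨x, hxC, hxQ⟩)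
  obtain ⟨t, h1, h2, h3⟩ := hF.three hA hP hQ hxA hP2 hyA hQ2 hP1 hQ1
  rcases h.mem_cases hF hA hsA h1 with rfl | rfl | rfl | rfl
  · exact hsP h2
  · exact hxQ h3
  · exact hyP h2
  · exact hzA h1

/-- The pair is such that every set of the family with the pair and a vertex of the stable part
contains all the neighbours of `s`. -/
def GP (K : Set V) (F : Set (Set V)) (e : Set V) (p : V × V) : Prop :=
  p.1 ∈ e ∧ p.2 ∈ e ∧ p.1 ≠ p.2 ∧ ∀ A ∈ F, (∃ t ∈ A, t ∉ K) → p.1 ∈ A → p.2 ∈ A → e ⊆ A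

theorem exists_gp (hS : Spl G K) (hF : RSFamily G F) {s : V} (hs : s ∉ K)
    (hw : ∃ w ∈ K, ¬ G.Adj s w) : ∃ p, GP K F {v | G.Adj s v} p := by
  obtain ⟨w, hw, hsw⟩ := hw
  obtain ⟨x, y, z, hxy, hyz, hxz, hn⟩ := hS.dg s hs
  have h : Nb G K s x y z := ⟨hs, hxy, hyz, hxz, hn⟩
  by_contra hno
  push Not at hno
  have hx := (hn x).2 (Or.inl rfl)
  have hy := (hn y).2 (Or.inr (Or.inl rfl))
  have hz := (hn z).2 (Or.inr (Or.inr rfl))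
  -- a set without the third vertex for each pair
  have ext : ∀ x y z, Nb G K s x y z → ∃ A ∈ F, (∃ t ∈ A, t ∉ K) ∧ x ∈ A ∧ y ∈ A ∧ z ∉ A := by
    intro x y z h
    have := hno (x, y)
    unfold GP at this
    push Not at this
    obtain ⟨A, hA, ht, h1, h2, h3⟩ := this ((h.2.2.2.2 _).2 (Or.inl rfl))
      ((h.2.2.2.2 _).2 (Or.inr (Or.inl rfl))) h.2.1
    refine ⟨A, hA, ht, h1, h2, fun h4 => h3 fun v hv => ?_⟩
    rcases (h.2.2.2.2 v).1 hv with rfl | rfl | rfl <;> assumption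
  obtain ⟨A, hA, htA, hxA, hyA, hzA⟩ := ext x y z h
  obtain ⟨B, hB, htB, hyB, hzB, hxB⟩ := ext y z x h.perm1.perm2
  obtain ⟨C, hC, htC, hxC, hzC, hyC⟩ := ext x z y h.perm2
  by_cases hfull : ∃ M ∈ F, s ∈ M ∧ x ∈ M ∧ y ∈ M ∧ z ∈ M
  · obtain ⟨M, hM, hsM, hxM, hyM, hzM⟩ := hfull
    obtain ⟨t, h1, h2, h3, h4⟩ := hF.four hA hB hC hM hyA hyB hxA hxC hzB hzC hxA hxM hyB hyM
      hzC hzM
    rcases h.mem_cases hF hM hsM h4 with rfl | rfl | rfl | rfl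
    · exact h.no_three hS hF hw hsw hA hB hC h1 h2 h3 hxA hyA hzA hyB hzB hxB hxC hzC hyC
    · exact hxB h2
    · exact hyC h3
    · exact hzA h1
  push Not at hfull
  -- if a pair has no set with `s`, then the others have, and there is a contradiction
  have two : ∀ x y z, Nb G K s x y z → (∀ M ∈ F, s ∈ M → x ∈ M → y ∈ M → z ∉ M) →
      (∃ C ∈ F, (∃ t ∈ C, t ∉ K) ∧ x ∈ C ∧ z ∈ C ∧ y ∉ C) → ∃ A ∈ F, s ∈ A ∧ x ∈ A ∧ z ∈ A := by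
    rintro x y z h hfull ⟨C, hC, -, hxC, hzC, hyC⟩
    rcases h.pair hS hF with h0 | ⟨⟨P, hP, hsP, hxP, hyP⟩, Q, hQ, hsQ, hyQ, hzQ⟩
    · exact h0
    obtain ⟨t, h1, h2, h3⟩ := hF.three hP hQ hC hsP hsQ hxP hxC hzQ hzC
    rcases h.mem_cases hF hP hsP h1 with rfl | rfl | rfl | rfl
    · exact ⟨C, hC, h3, hxC, hzC⟩
    · exact absurd hzQ (hfull Q hQ hsQ h2 hyQ)
    · exact absurd h3 hyC
    · exact absurd h1 (hfull P hP hsP hxP hyP)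
  obtain ⟨A', hA', hsA', hxA', hyA'⟩ := two x z y h.perm2 (fun M a b c d e => hfull M a b c e d)
    ⟨A, hA, htA, hxA, hyA, hzA⟩
  obtain ⟨B', hB', hsB', hyB', hzB'⟩ := two y x z h.perm1 (fun M a b c d e => hfull M a b d c e)
    ⟨B, hB, htB, hyB, hzB, hxB⟩
  obtain ⟨C', hC', hsC', hxC', hzC'⟩ := two x y z h hfull ⟨C, hC, htC, hxC, hzC, hyC⟩
  exact h.no_three hS hF hw hsw hA' hB' hC' hsA' hsB' hsC' hxA' hyA'
    (hfull A' hA' hsA' hxA' hyA') hyB' hzB' (fun e => hfull B' hB' hsB' e hyB' hzB') hxC' hzC'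
    (fun e => hfull C' hC' hsC' hxC' e hzC')

theorem drop_of_rs (hS : Spl G K) (hF : RSFamily G F) : ∃ D, Drop G K D := by
  classical
  by_cases hsm : ∃ s ∉ K, ∀ w ∈ K, G.Adj s w
  · obtain ⟨s, hs, hall⟩ := hsm
    obtain ⟨x, y, z, hxy, hyz, hxz, hn⟩ := hS.dg s hs
    have inK : ∀ {s v : V}, s ∉ K → G.Adj s v → v ∈ K := by
      intro s v hs hv
      by_contra h
      exact hS.st _ hs _ h hv
    refine ⟨fun a b => (a = x ∧ b = y) ∨ (a = y ∧ b = x), ?_, ?_, ?_⟩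
    · rintro a b (⟨rfl, rfl⟩ | ⟨rfl, rfl⟩)
      · exact Or.inr ⟨rfl, rfl⟩
      · exact Or.inl ⟨rfl, rfl⟩
    · rintro t a b c ht ⟨h1, h2⟩
      rcases h1 with ⟨rfl, rfl⟩ | ⟨rfl, rfl⟩ <;> rcases h2 with ⟨h2, h3⟩ | ⟨h2, h3⟩
      · exact hxy h2.symm
      · exact ht.2.2.2.1 h3.symm
      · exact ht.2.2.2.1 h3.symm
      · exact hxy h2
    · rintro a b c ⟨hab, t1, ht1, ha1, hb1⟩ ⟨hbc, t2, ht2, hb2, hc2⟩ ⟨hac, -⟩
      have ha := (hn a).1 (hall a (inK ht1 ha1))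
      have hb := (hn b).1 (hall b (inK ht1 hb1))
      have hc := (hn c).1 (hall c (inK ht2 hc2))
      rcases ha with rfl | rfl | rfl <;> rcases hb with rfl | rfl | rfl <;>
        rcases hc with rfl | rfl | rfl <;> simp_all
  push Not at hsm
  have hex : ∀ s ∉ K, ∃ p, GP K F {v | G.Adj s v} p := fun s hs => exists_gp hS hF hs (hsm s hs)
  obtain ⟨ch, hch⟩ : ∃ ch : {e : Set V // ∃ p, GP K F e p} → V × V, ∀ e, GP K F e.1 (ch e) :=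
    ⟨fun e => e.2.choose, fun e => e.2.choose_spec⟩
  let D : V → V → Prop := fun a b => ∃ (s : V) (hs : s ∉ K),
    ch ⟨{v | G.Adj s v}, hex s hs⟩ = (a, b) ∨ ch ⟨{v | G.Adj s v}, hex s hs⟩ = (b, a)
  have hDsym : ∀ a b, D a b → D b a := by
    rintro a b ⟨s, hs, h⟩
    exact ⟨s, hs, h.symm⟩
  have hgp : ∀ s (hs : s ∉ K) a b, (ch ⟨{v | G.Adj s v}, hex s hs⟩ = (a, b) ∨
      ch ⟨{v | G.Adj s v}, hex s hs⟩ = (b, a)) → G.Adj s a ∧ G.Adj s b ∧ a ≠ b ∧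
      ∀ A ∈ F, (∃ t ∈ A, t ∉ K) → a ∈ A → b ∈ A → ∀ v, G.Adj s v → v ∈ A := by
    intro s hs a b h
    have h1 := hch ⟨{v | G.Adj s v}, hex s hs⟩
    rcases h with h | h
    · rw [h] at h1
      exact ⟨h1.1, h1.2.1, h1.2.2.1, fun A hA ht ha hb v hv => h1.2.2.2 A hA ht ha hb hv⟩
    · rw [h] at h1
      exact ⟨h1.2.1, h1.1, h1.2.2.1.symm, fun A hA ht ha hb v hv => h1.2.2.2 A hA ht hb ha hv⟩
  -- the choice for `s` is one of the three pairs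
  have cases3 : ∀ s x y z, (h : Nb G K s x y z) →
      (ch ⟨{v | G.Adj s v}, hex s h.1⟩ = (x, y) ∨ ch ⟨{v | G.Adj s v}, hex s h.1⟩ = (y, x)) ∨
      (ch ⟨{v | G.Adj s v}, hex s h.1⟩ = (y, z) ∨ ch ⟨{v | G.Adj s v}, hex s h.1⟩ = (z, y)) ∨
      (ch ⟨{v | G.Adj s v}, hex s h.1⟩ = (x, z) ∨ ch ⟨{v | G.Adj s v}, hex s h.1⟩ = (z, x)) := by
    intro s x y z h
    have h1 := hch ⟨{v | G.Adj s v}, hex s h.1⟩
    generalize ch ⟨{v | G.Adj s v}, hex s h.1⟩ = p at h1 ⊢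
    obtain ⟨a, b⟩ := p
    have ha := (h.2.2.2.2 a).1 h1.1
    have hb := (h.2.2.2.2 b).1 h1.2.1
    have hab : a ≠ b := h1.2.2.1
    rcases ha with rfl | rfl | rfl <;> rcases hb with rfl | rfl | rfl
    · exact absurd rfl hab
    · exact Or.inl (Or.inl rfl)
    · exact Or.inr (Or.inr (Or.inl rfl))
    · exact Or.inl (Or.inr rfl)
    · exact absurd rfl hab
    · exact Or.inr (Or.inl (Or.inl rfl))
    · exact Or.inr (Or.inr (Or.inr rfl))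
    · exact Or.inr (Or.inl (Or.inr rfl))
    · exact absurd rfl hab
  -- if no set contains `s` and the pair, then the pair is chosen
  have forced : ∀ s a b c, (h : Nb G K s a b c) → (¬ ∃ A ∈ F, s ∈ A ∧ a ∈ A ∧ b ∈ A) →
      (ch ⟨{v | G.Adj s v}, hex s h.1⟩ = (a, b) ∨ ch ⟨{v | G.Adj s v}, hex s h.1⟩ = (b, a)) := by
    intro s a b c h hno
    have ha := (h.2.2.2.2 _).2 (Or.inl (rfl : a = a))
    have hb := (h.2.2.2.2 _).2 (Or.inr (Or.inl (rfl : b = b)))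
    rcases h.perm2.pair hS hF with h0 | ⟨⟨P, hP, hsP, haP, hcP⟩, Q, hQ, hsQ, hcQ, hbQ⟩
    · exact absurd h0 hno
    rcases cases3 s a b c h with h1 | h1 | h1
    · exact h1
    · exact absurd ⟨Q, hQ, hsQ, (hgp s h.1 b c h1).2.2.2 Q hQ ⟨s, hsQ, h.1⟩ hbQ hcQ a ha, hbQ⟩ hno
    · exact absurd ⟨P, hP, hsP, haP, (hgp s h.1 a c h1).2.2.2 P hP ⟨s, hsP, h.1⟩ haP hcP b hb⟩ hno
  -- dropped pairs of neighbours of `s` are the chosen one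
  have uniq : ∀ s a b c, (h : Nb G K s a b c) → D a b →
      (ch ⟨{v | G.Adj s v}, hex s h.1⟩ = (a, b) ∨ ch ⟨{v | G.Adj s v}, hex s h.1⟩ = (b, a)) := by
    rintro s a b c h ⟨s', hs', h'⟩
    by_cases hno : ∃ A ∈ F, s ∈ A ∧ a ∈ A ∧ b ∈ A
    · obtain ⟨A, hA, hsA, haA, hbA⟩ := hno
      obtain ⟨h1, h2, h3, h4⟩ := hgp s' hs' a b h'
      obtain ⟨d, hd⟩ := hS.nb_of hs' h1 h2 h3
      have hdA := h4 A hA ⟨s, hsA, h.1⟩ haA hbA d ((hd.2.2.2.2 _).2 (Or.inr (Or.inr rfl)))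
      have hdK := (hd.inK hS).2.2
      have hdc : d = c := by
        rcases h.mem_cases hF hA hsA hdA with e | e | e | e
        · exact absurd (e ▸ hdK) h.1
        · exact absurd e.symm hd.2.2.2.1
        · exact absurd e.symm hd.2.2.1
        · exact e
      have hset : ({v | G.Adj s' v} : Set V) = {v | G.Adj s v} := by
        ext v
        show G.Adj s' v ↔ G.Adj s v
        rw [hd.2.2.2.2 v, h.2.2.2.2 v, hdc]
      have : (⟨{v | G.Adj s' v}, hex s' hs'⟩ : {e : Set V // ∃ p, GP K F e p}) =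
        ⟨{v | G.Adj s v}, hex s h.1⟩ := Subtype.ext hset
      rw [this] at h'
      exact h'
    · exact forced s a b c h hno
  refine ⟨D, hDsym, ?_, ?_⟩
  · rintro s x y z h ⟨h1, h2⟩
    have u1 := uniq s x y z h h1
    have u2 := uniq s y z x h.perm1.perm2 h2
    rcases u1 with u1 | u1 <;> rcases u2 with u2 | u2 <;> rw [u1] at u2 <;>
      have e := Prod.mk.inj u2
    · exact h.2.1 e.1
    · exact h.2.2.2.1 e.1
    · exact h.2.2.2.1 e.2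
    · exact h.2.1 e.2
  · rintro x y z ⟨hxy, s1, hs1, hx1, hy1⟩ ⟨hyz, s2, hs2, hy2, hz2⟩ ⟨hxz, s3, hs3, hx3, hz3⟩
    -- a common neighbour of all three
    have common : ∀ s ∉ K, G.Adj s x → G.Adj s y → G.Adj s z → D x y ∨ D y z ∨ D x z := by
      intro s hs hx hy hz
      obtain ⟨c, hc⟩ := hS.nb_of hs hx hy hxy
      have hzc : z = c := by
        rcases (hc.2.2.2.2 z).1 hz with e | e | e
        · exact absurd e.symm hxz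
        · exact absurd e.symm hyz
        · exact e
      subst hzc
      rcases cases3 s x y z hc with h | h | h
      · exact Or.inl ⟨s, hs, h⟩
      · exact Or.inr (Or.inl ⟨s, hs, h⟩)
      · exact Or.inr (Or.inr ⟨s, hs, h⟩)
    by_contra hcon
    have hcm : ∀ s ∉ K, G.Adj s x → G.Adj s y → G.Adj s z → False := fun s hs a b c =>
      hcon (common s hs a b c)
    push Not at hcon
    obtain ⟨c1, c2, c3⟩ := hcon
    obtain ⟨v1, n1⟩ := hS.nb_of hs1 hx1 hy1 hxy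
    obtain ⟨v2, n2⟩ := hS.nb_of hs2 hy2 hz2 hyz
    obtain ⟨v3, n3⟩ := hS.nb_of hs3 hx3 hz3 hxz
    have e1 : ∃ A ∈ F, s1 ∈ A ∧ x ∈ A ∧ y ∈ A := by
      by_contra h
      exact c1 ⟨s1, hs1, forced _ _ _ _ n1 h⟩
    have e2 : ∃ A ∈ F, s2 ∈ A ∧ y ∈ A ∧ z ∈ A := by
      by_contra h
      exact c2 ⟨s2, hs2, forced _ _ _ _ n2 h⟩
    have e3 : ∃ A ∈ F, s3 ∈ A ∧ x ∈ A ∧ z ∈ A := by
      by_contra h
      exact c3 ⟨s3, hs3, forced _ _ _ _ n3 h⟩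
    obtain ⟨A, hA, hsA, hxA, hyA⟩ := e1
    obtain ⟨B, hB, hsB, hyB, hzB⟩ := e2
    obtain ⟨C, hC, hsC, hxC, hzC⟩ := e3
    have inK : ∀ {s v : V}, s ∉ K → G.Adj s v → v ∈ K := by
      intro s v hs hv
      by_contra h
      exact hS.st _ hs _ h hv
    have hxB : x ∉ B := fun h => hcm s2 hs2 (hF.1 B hB hsB h (fun e => hs2 (e ▸ inK hs1 hx1)))
      hy2 hz2
    have hyC : y ∉ C := fun h => hcm s3 hs3 hx3
      (hF.1 C hC hsC h (fun e => hs3 (e ▸ inK hs1 hy1))) hz3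
    have hzA : z ∉ A := fun h => hcm s1 hs1 hx1 hy1
      (hF.1 A hA hsA h (fun e => hs1 (e ▸ inK hs2 hz2)))
    obtain ⟨t, htA, htB, htC⟩ := hF.three hA hB hC hyA hyB hxA hxC hzB hzC
    rcases n1.mem_cases hF hA hsA htA with rfl | rfl | rfl | rfl
    · -- `s1 ∈ B`
      by_cases he : t = s2
      · subst he
        exact hcm t hs1 hx1 hy1 hz2
      · exact hS.st t hs1 s2 hs2 (hF.1 B hB htB hsB he)
    · exact hxB htB
    · exact hyC htC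
    · rcases cases3 s1 x y t n1 with h | h | h
      · exact c1 ⟨s1, hs1, h⟩
      · exact hxB ((hgp s1 hs1 y t h).2.2.2 B hB ⟨s2, hsB, hs2⟩ hyB htB x hx1)
      · exact hyC ((hgp s1 hs1 x t h).2.2.2 C hC ⟨s3, hsC, hs3⟩ hxC htC y hy1)

theorem isCliqueGraph_iff [Finite V] (hS : Spl G K) : IsCliqueGraph G ↔ ∃ D, Drop G K D := by
  constructor
  · intro h
    obtain ⟨F, hF⟩ := rs_of_cliqueGraph h
    exact drop_of_rs hS hF
  · rintro ⟨D, hD⟩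
    obtain ⟨F, hF⟩ := rs_of_drop hS hD
    exact cliqueGraph_of_rs hF

end Pool.Agent.R544.CG
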