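import Mathlib

/-!
# Recognising clique graphs among split graphs with stable side of degree 3: the problem
-/

namespace Pool.Agent.R544.CG

/-- The clique graph of `H`: its vertices are the (nonempty) maximal complete sets of vertices of
`H`, and two of them are adjacent when they are different and share a vertex. -/
def cliqueGraph {W : Type} (H : SimpleGraph W) :
    SimpleGraph {C : Set W // C.Nonempty ∧ Maximal H.IsClique C} where
  Adj C D := C ≠ D ∧ (C.1 ∩ D.1).Nonempty
  symm := ⟨fun _ _ h => ⟨h.1.symm, by rw [Set.inter_comm]; exact h.2⟩⟩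
  loopless := ⟨fun _ h => h.1 rfl⟩

/-- `G` is the clique graph of some finite graph. -/
def IsCliqueGraph {V : Type} (G : SimpleGraph V) : Prop :=
  ∃ (W : Type) (_ : Finite W) (H : SimpleGraph W), Nonempty (G ≃g cliqueGraph H)

/-- An instance `(K, S, E)`: the two parts of the vertex set and the list of the edges. -/
abbrev Inst : Type := List ℕ × List ℕ × List (ℕ × ℕ)

/-- Two numbers are joined by an edge of the list. -/
def Ad (I : Inst) (u v : ℕ) : Prop := (u, v) ∈ I.2.2 ∨ (v, u) ∈ I.2.2

instance (I : Inst) (u v : ℕ) : Decidable (Ad I u v) := inferInstanceAs (Decidable (_ ∨ _))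

/-- The graph of an instance, with vertex set `K ∪ S`. -/
def graph (I : Inst) : SimpleGraph {v : ℕ // v ∈ I.1 ++ I.2.1} where
  Adj u v := u ≠ v ∧ Ad I u v
  symm := ⟨fun _ _ h => ⟨h.1.symm, h.2.symm⟩⟩
  loopless := ⟨fun _ h => h.1 rfl⟩

/-- The instance is a graph with a split partition `(K, S)` (`K` is complete, `S` is stable) in
which every vertex of `S` has degree exactly 3 (all the neighbours of a vertex of `S` are in `K`). -/
def IsSplit33 (I : Inst) : Prop :=
  (I.1 ++ I.2.1).Nodup ∧ (∀ e ∈ I.2.2, e.1 ∈ I.1 ++ I.2.1 ∧ e.2 ∈ I.1 ++ I.2.1 ∧ e.1 ≠ e.2) ∧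
  (∀ x ∈ I.1, ∀ y ∈ I.1, x = y ∨ Ad I x y) ∧ (∀ s ∈ I.2.1, ∀ t ∈ I.2.1, ¬ Ad I s t) ∧
  ∀ s ∈ I.2.1, (I.1.filter (fun x => decide (Ad I s x))).length = 3

/-- The recognition problem: given `G` in `3split₃` with the partition, is `G` a clique graph? -/
def CliqueGraphRecognition (I : Inst) : Prop := IsSplit33 I ∧ IsCliqueGraph (graph I)

end Pool.Agent.R544.CG
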