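import Pool.Agent.R544.P13

/-!
# Choosing one pair of every triple
-/

set_option autoImplicit false

namespace Pool.Agent.R544.CG

open Pool.Agent.NPC Pool.Agent.R544 Pool.Agent.H958R2

/-- The number is one of the three. -/
def In3 (x : ℕ) (t : ℕ × ℕ × ℕ) : Prop := x = t.1 ∨ x = t.2.1 ∨ x = t.2.2

/-- The two different numbers are in a common triple. -/
def ShL (L : N3) (x y : ℕ) : Prop := x ≠ y ∧ ∃ t ∈ L, In3 x t ∧ In3 y t

/-- The condition: at most one pair of every triple is dropped, and at least one pair of three numbers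
which are pairwise in common triples. -/
def HY (L : N3) : Prop := ∃ D : ℕ → ℕ → Bool, (∀ x y, D x y = D y x) ∧
  (∀ t ∈ L, ¬ (D t.1 t.2.1 = true ∧ D t.2.1 t.2.2 = true) ∧
    ¬ (D t.1 t.2.1 = true ∧ D t.1 t.2.2 = true) ∧
    ¬ (D t.2.1 t.2.2 = true ∧ D t.1 t.2.2 = true)) ∧
  ∀ x y z, ShL L x y → ShL L y z → ShL L x z → D x y = true ∨ D y z = true ∨ D x z = true

/-- The triples consist of different numbers. -/
def Dist3 (L : N3) : Prop := ∀ t ∈ L, t.1 ≠ t.2.1 ∧ t.2.1 ≠ t.2.2 ∧ t.1 ≠ t.2.2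

/-- The next occurrence in the triple, cyclically. -/
def nx (o : ℕ) : ℕ := 3 * (o / 3) + (o % 3 + 1) % 3

/-- The triples of four numbers. -/
def k4 (a b c d : ℕ) : N3 := [(a, b, c), (a, b, d), (a, c, d), (b, c, d)]

/-- The triples of the construction. -/
def hyp (φ : N3) : N3 :=
  (List.range (3 * φ.length)).flatMap (fun o =>
    k4 (6 * ov φ o) (6 * ov φ o + 3) (6 * o + 1) (6 * o + 4) ++
    k4 (6 * o + 1) (6 * o + 4) (3 * o + 2) (3 * nx o + 2)) ++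
  (List.range φ.length).map (fun j => (9 * j + 2, 9 * j + 5, 9 * j + 8))

theorem mem_hyp {φ : N3} {t : ℕ × ℕ × ℕ} : t ∈ hyp φ ↔
    (∃ o < 3 * φ.length, t ∈ k4 (6 * ov φ o) (6 * ov φ o + 3) (6 * o + 1) (6 * o + 4) ∨
      t ∈ k4 (6 * o + 1) (6 * o + 4) (3 * o + 2) (3 * nx o + 2)) ∨
    ∃ j < φ.length, t = (9 * j + 2, 9 * j + 5, 9 * j + 8) := by
  unfold hyp
  simp only [List.mem_append, List.mem_flatMap, List.mem_map, List.mem_range]
  constructor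
  · rintro (⟨o, ho, h⟩ | ⟨j, hj, h⟩)
    · exact Or.inl ⟨o, ho, h⟩
    · exact Or.inr ⟨j, hj, h.symm⟩
  · rintro (⟨o, ho, h⟩ | ⟨j, hj, h⟩)
    · exact Or.inl ⟨o, ho, h⟩
    · exact Or.inr ⟨j, hj, h.symm⟩

theorem mem_k4 {a b c d : ℕ} {t : ℕ × ℕ × ℕ} : t ∈ k4 a b c d ↔
    t = (a, b, c) ∨ t = (a, b, d) ∨ t = (a, c, d) ∨ t = (b, c, d) := by
  unfold k4
  simp

theorem dist3_k4 {a b c d : ℕ} (h1 : a ≠ b) (h2 : a ≠ c) (h3 : a ≠ d) (h4 : b ≠ c) (h5 : b ≠ d)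
    (h6 : c ≠ d) : Dist3 (k4 a b c d) := by
  intro t ht
  rw [mem_k4] at ht
  rcases ht with rfl | rfl | rfl | rfl
  · exact ⟨h1, h4, h2⟩
  · exact ⟨h1, h5, h3⟩
  · exact ⟨h2, h6, h3⟩
  · exact ⟨h4, h6, h5⟩

theorem nx_ne (o : ℕ) : nx o ≠ o := by
  unfold nx
  omega

theorem dist3_hyp (φ : N3) : Dist3 (hyp φ) := by
  intro t ht
  rw [mem_hyp] at ht
  rcases ht with ⟨o, -, h | h⟩ | ⟨j, -, rfl⟩
  · exact dist3_k4 (by omega) (by omega) (by omega) (by omega) (by omega) (by omega) t h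
  · have := nx_ne o
    exact dist3_k4 (by omega) (by omega) (by omega) (by omega) (by omega) (by omega) t h
  · refine ⟨?_, ?_, ?_⟩ <;> simp only <;> omega

/-! ### From a choice to an assignment -/

theorem one3_of (a b c : Bool) (h1 : ¬ (a = true ∧ b = true)) (h2 : ¬ (a = true ∧ c = true))
    (h3 : ¬ (b = true ∧ c = true)) (h4 : a = true ∨ b = true ∨ c = true) : one3 a b c = true := by
  cases a <;> cases b <;> cases c <;> simp_all [one3]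

theorem k4_lemma : ∀ ab ap aq bp bq pq : Bool, one3 ab bp ap = true → one3 ab bq aq = true →
    one3 ap pq aq = true → one3 bp pq bq = true → ab = pq := by decide

theorem one3_hy {L : N3} {D : ℕ → ℕ → Bool} (hd : Dist3 L)
    (h1 : ∀ t ∈ L, ¬ (D t.1 t.2.1 = true ∧ D t.2.1 t.2.2 = true) ∧
    ¬ (D t.1 t.2.1 = true ∧ D t.1 t.2.2 = true) ∧
    ¬ (D t.2.1 t.2.2 = true ∧ D t.1 t.2.2 = true))
    (h2 : ∀ x y z, ShL L x y → ShL L y z → ShL L x z → D x y = true ∨ D y z = true ∨ D x z = true)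
    {a b c : ℕ} (h : (a, b, c) ∈ L) : one3 (D a b) (D b c) (D a c) = true := by
  obtain ⟨d1, d2, d3⟩ := hd _ h
  obtain ⟨e1, e2, e3⟩ := h1 _ h
  exact one3_of _ _ _ e1 e2 e3 (h2 a b c ⟨d1, _, h, Or.inl rfl, Or.inr (Or.inl rfl)⟩
    ⟨d2, _, h, Or.inr (Or.inl rfl), Or.inr (Or.inr rfl)⟩ ⟨d3, _, h, Or.inl rfl, Or.inr (Or.inr rfl)⟩)

theorem p13_of_hy {φ : N3} (h : HY (hyp φ)) : P13 φ := by
  obtain ⟨D, hsym, h1, h2⟩ := h
  have ho := fun {a b c : ℕ} (h : (a, b, c) ∈ hyp φ) => one3_hy (dist3_hyp φ) h1 h2 h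
  have hk : ∀ a b c d, (∀ t ∈ k4 a b c d, t ∈ hyp φ) → D a b = D c d := by
    intro a b c d h
    exact k4_lemma _ _ _ _ _ _ (ho (h _ (mem_k4.2 (Or.inl rfl))))
      (ho (h _ (mem_k4.2 (Or.inr (Or.inl rfl))))) (ho (h _ (mem_k4.2 (Or.inr (Or.inr (Or.inl rfl))))))
      (ho (h _ (mem_k4.2 (Or.inr (Or.inr (Or.inr rfl))))))
  rw [p13_iff]
  refine ⟨fun v => D (6 * v) (6 * v + 3), fun j hj => ?_⟩
  have key : ∀ o < 3 * φ.length, D (6 * ov φ o) (6 * ov φ o + 3) = D (3 * o + 2) (3 * nx o + 2) := by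
    intro o ho
    rw [hk _ _ _ _ (fun t ht => mem_hyp.2 (Or.inl ⟨o, ho, Or.inl ht⟩)),
      hk _ _ _ _ (fun t ht => mem_hyp.2 (Or.inl ⟨o, ho, Or.inr ht⟩))]
  have h3 := ho (mem_hyp.2 (Or.inr ⟨j, hj, rfl⟩))
  simp only
  rw [key (3 * j) (by omega), key (3 * j + 1) (by omega), key (3 * j + 2) (by omega)]
  have n0 : nx (3 * j) = 3 * j + 1 := by unfold nx; omega
  have n1 : nx (3 * j + 1) = 3 * j + 2 := by unfold nx; omega
  have n2 : nx (3 * j + 2) = 3 * j := by unfold nx; omega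
  rw [n0, n1, n2, hsym (3 * (3 * j + 2) + 2)]
  have e1 : 3 * (3 * j) + 2 = 9 * j + 2 := by ring
  have e2 : 3 * (3 * j + 1) + 2 = 9 * j + 5 := by ring
  have e3 : 3 * (3 * j + 2) + 2 = 9 * j + 8 := by ring
  rw [e1, e2, e3]
  exact h3

/-! ### From an assignment to a choice -/

/-- The vertices. -/
inductive Vx : Type
  | a (v : ℕ) (b : Bool)
  | p (o : ℕ) (b : Bool)
  | c (k : ℕ)

/-- Their numbers. -/
def enc : Vx → ℕ
  | .a v b => 6 * v + (if b then 3 else 0)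
  | .p o b => 6 * o + 1 + (if b then 3 else 0)
  | .c k => 3 * k + 2

theorem enc_inj : Function.Injective enc := by
  intro x y h
  rcases x with ⟨v, b⟩ | ⟨v, b⟩ | v <;> rcases y with ⟨w, d⟩ | ⟨w, d⟩ | w <;>
    simp only [enc] at h <;> first | (cases b <;> cases d <;> simp at h <;> congr 1 <;> omega) |
      (cases b <;> simp at h <;> omega) | (cases d <;> simp at h <;> omega) | (congr 1; omega)

/-- Two vertices of a common triple. -/
def AV (φ : N3) : Vx → Vx → Prop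
  | .a v b, .a v' b' => v = v' ∧ b ≠ b'
  | .a v _, .p o _ => ov φ o = v
  | .p o _, .a v _ => ov φ o = v
  | .p o b, .p o' b' => o = o' ∧ b ≠ b'
  | .p o _, .c k => k = o ∨ k = nx o
  | .c k, .p o _ => k = o ∨ k = nx o
  | .c k, .c k' => k / 3 = k' / 3 ∧ k ≠ k' ∧ k < 3 * φ.length
  | _, _ => False

/-- The choice. -/
def DV (φ : N3) (τ : ℕ → Bool) : Vx → Vx → Prop
  | .a v b, .a v' b' => v = v' ∧ b ≠ b' ∧ τ v = true
  | .a v b, .p o b' => ov φ o = v ∧ b = b' ∧ τ v = false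
  | .p o b', .a v b => ov φ o = v ∧ b = b' ∧ τ v = false
  | .p o b, .p o' b' => o = o' ∧ b ≠ b' ∧ τ (ov φ o) = true
  | .p o b, .c k => τ (ov φ o) = false ∧ ((b = false ∧ k = o) ∨ (b = true ∧ k = nx o))
  | .c k, .p o b => τ (ov φ o) = false ∧ ((b = false ∧ k = o) ∨ (b = true ∧ k = nx o))
  | .c k, .c k' => (k' = nx k ∧ τ (ov φ k) = true) ∨ (k = nx k' ∧ τ (ov φ k') = true)
  | _, _ => False

theorem DV_symm {φ : N3} {τ : ℕ → Bool} {x y : Vx} (h : DV φ τ x y) : DV φ τ y x := by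
  rcases x with ⟨v, b⟩ | ⟨v, b⟩ | v <;> rcases y with ⟨w, d⟩ | ⟨w, d⟩ | w <;>
    simp only [DV] at h ⊢
  · obtain ⟨rfl, h2, h3⟩ := h
    exact ⟨rfl, h2.symm, h3⟩
  · exact h
  · exact h
  · obtain ⟨rfl, h2, h3⟩ := h
    exact ⟨rfl, h2.symm, h3⟩
  · exact h
  · exact h
  · exact h.symm

theorem mem_hyp' {φ : N3} {t : ℕ × ℕ × ℕ} (h : t ∈ hyp φ) : ∃ x y z : Vx,
    t = (enc x, enc y, enc z) ∧ ((∃ o < 3 * φ.length,
      ((∃ b, x = .a (ov φ o) false ∧ y = .a (ov φ o) true ∧ z = .p o b) ∨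
       (∃ b, x = .a (ov φ o) b ∧ y = .p o false ∧ z = .p o true) ∨
       (x = .p o false ∧ y = .p o true ∧ z = .c o) ∨
       (x = .p o false ∧ y = .p o true ∧ z = .c (nx o)) ∨
       (∃ b, x = .p o b ∧ y = .c o ∧ z = .c (nx o)))) ∨
      ∃ j < φ.length, x = .c (3 * j) ∧ y = .c (3 * j + 1) ∧ z = .c (3 * j + 2)) := by
  rw [mem_hyp] at h
  rcases h with ⟨o, ho, h | h⟩ | ⟨j, hj, rfl⟩
  · rw [mem_k4] at h
    rcases h with rfl | rfl | rfl | rfl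
    · exact ⟨.a (ov φ o) false, .a (ov φ o) true, .p o false, rfl,
        Or.inl ⟨o, ho, Or.inl ⟨false, rfl, rfl, rfl⟩⟩⟩
    · exact ⟨.a (ov φ o) false, .a (ov φ o) true, .p o true, rfl,
        Or.inl ⟨o, ho, Or.inl ⟨true, rfl, rfl, rfl⟩⟩⟩
    · exact ⟨.a (ov φ o) false, .p o false, .p o true, rfl,
        Or.inl ⟨o, ho, Or.inr (Or.inl ⟨false, rfl, rfl, rfl⟩)⟩⟩
    · exact ⟨.a (ov φ o) true, .p o false, .p o true, rfl,
        Or.inl ⟨o, ho, Or.inr (Or.inl ⟨true, rfl, rfl, rfl⟩)⟩⟩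
  · rw [mem_k4] at h
    rcases h with rfl | rfl | rfl | rfl
    · exact ⟨.p o false, .p o true, .c o, rfl,
        Or.inl ⟨o, ho, Or.inr (Or.inr (Or.inl ⟨rfl, rfl, rfl⟩))⟩⟩
    · exact ⟨.p o false, .p o true, .c (nx o), rfl,
        Or.inl ⟨o, ho, Or.inr (Or.inr (Or.inr (Or.inl ⟨rfl, rfl, rfl⟩)))⟩⟩
    · exact ⟨.p o false, .c o, .c (nx o), rfl,
        Or.inl ⟨o, ho, Or.inr (Or.inr (Or.inr (Or.inr ⟨false, rfl, rfl, rfl⟩)))⟩⟩
    · exact ⟨.p o true, .c o, .c (nx o), rfl,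
        Or.inl ⟨o, ho, Or.inr (Or.inr (Or.inr (Or.inr ⟨true, rfl, rfl, rfl⟩)))⟩⟩
  · refine ⟨.c (3 * j), .c (3 * j + 1), .c (3 * j + 2), ?_, Or.inr ⟨j, hj, rfl, rfl, rfl⟩⟩
    simp only [enc, Prod.mk.injEq]
    omega

theorem nx_lt {φ : N3} {o : ℕ} (ho : o < 3 * φ.length) : nx o < 3 * φ.length := by
  unfold nx
  omega

theorem AV_symm {φ : N3} {x y : Vx} (h : AV φ x y) : AV φ y x := by
  rcases x with ⟨v, b⟩ | ⟨v, b⟩ | v <;> rcases y with ⟨w, d⟩ | ⟨w, d⟩ | w <;>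
    simp only [AV] at h ⊢
  · exact ⟨h.1.symm, h.2.symm⟩
  · exact h
  · exact h
  · exact ⟨h.1.symm, h.2.symm⟩
  · exact h
  · exact h
  · omega

theorem AV_of {φ : N3} {x y : ℕ} (h : ShL (hyp φ) x y) : ∃ u v : Vx, x = enc u ∧ y = enc v ∧
    AV φ u v := by
  obtain ⟨hne, t, ht, hx, hy⟩ := h
  obtain ⟨a, b, c, rfl, h⟩ := mem_hyp' ht
  have key : AV φ a b ∧ AV φ b c ∧ AV φ a c := by
    rcases h with ⟨o, ho, ⟨d, rfl, rfl, rfl⟩ | ⟨d, rfl, rfl, rfl⟩ | ⟨rfl, rfl, rfl⟩ | ⟨rfl, rfl, rfl⟩ |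
      ⟨d, rfl, rfl, rfl⟩⟩ | ⟨j, hj, rfl, rfl, rfl⟩
    · exact ⟨⟨rfl, by decide⟩, rfl, rfl⟩
    · exact ⟨rfl, ⟨rfl, by decide⟩, rfl⟩
    · exact ⟨⟨rfl, by decide⟩, Or.inl rfl, Or.inl rfl⟩
    · exact ⟨⟨rfl, by decide⟩, Or.inr rfl, Or.inr rfl⟩
    · refine ⟨Or.inl rfl, ?_, Or.inr rfl⟩
      have h1 := nx_ne o
      have h2 : o / 3 = nx o / 3 := by unfold nx; omega
      exact ⟨h2, h1.symm, ho⟩
    · refine ⟨⟨by omega, by omega, by omega⟩, ⟨by omega, by omega, by omega⟩,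
        ⟨by omega, by omega, by omega⟩⟩
  obtain ⟨k1, k2, k3⟩ := key
  rcases hx with rfl | rfl | rfl <;> rcases hy with rfl | rfl | rfl
  · exact absurd rfl hne
  · exact ⟨_, _, rfl, rfl, k1⟩
  · exact ⟨_, _, rfl, rfl, k3⟩
  · exact ⟨_, _, rfl, rfl, AV_symm k1⟩
  · exact absurd rfl hne
  · exact ⟨_, _, rfl, rfl, k2⟩
  · exact ⟨_, _, rfl, rfl, AV_symm k3⟩
  · exact ⟨_, _, rfl, rfl, AV_symm k2⟩
  · exact absurd rfl hne

theorem one3_cases {a b c : Bool} (h : one3 a b c = true) :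
    (a = true ∧ b = false ∧ c = false) ∨ (a = false ∧ b = true ∧ c = false) ∨
    (a = false ∧ b = false ∧ c = true) := by
  cases a <;> cases b <;> cases c <;> simp_all [one3]

/-- Three occurrences of a triple. -/
theorem clause_cases {φ : N3} {τ : ℕ → Bool} (hτ : ∀ j < φ.length,
    one3 (τ (ov φ (3 * j))) (τ (ov φ (3 * j + 1))) (τ (ov φ (3 * j + 2))) = true) {k : ℕ}
    (hk : k < 3 * φ.length) :
    (∃ k', k' / 3 = k / 3 ∧ τ (ov φ k') = true) ∧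
      ∀ k' k'', k' / 3 = k / 3 → k'' / 3 = k / 3 → τ (ov φ k') = true → τ (ov φ k'') = true →
        k' = k'' := by
  have h := one3_cases (hτ (k / 3) (by omega))
  constructor
  · rcases h with h | h | h
    · exact ⟨3 * (k / 3), by omega, h.1⟩
    · exact ⟨3 * (k / 3) + 1, by omega, h.2.1⟩
    · exact ⟨3 * (k / 3) + 2, by omega, h.2.2⟩
  · intro k' k'' h1 h2 h3 h4
    have e1 : k' = 3 * (k / 3) ∨ k' = 3 * (k / 3) + 1 ∨ k' = 3 * (k / 3) + 2 := by omega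
    have e2 : k'' = 3 * (k / 3) ∨ k'' = 3 * (k / 3) + 1 ∨ k'' = 3 * (k / 3) + 2 := by omega
    rcases e1 with e1 | e1 | e1 <;> rcases e2 with e2 | e2 | e2 <;>
      rw [e1] at h3 ⊢ <;> rw [e2] at h4 ⊢ <;> rcases h with h | h | h <;> simp_all

theorem b_ne_ne : ∀ b d e : Bool, b ≠ d → d ≠ e → b ≠ e → False := by decide
theorem b_or : ∀ b d e : Bool, b ≠ d → e = b ∨ e = d := by decide
theorem b_ft : ∀ b d : Bool, b ≠ d → (b = false ∧ d = true) ∨ (b = true ∧ d = false) := by decide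

theorem core_aap {φ : N3} (τ : ℕ → Bool) {v o : ℕ} {b d e : Bool} (h : b ≠ d) (h' : ov φ o = v) :
    DV φ τ (.a v b) (.a v d) ∨ DV φ τ (.a v d) (.p o e) ∨ DV φ τ (.a v b) (.p o e) := by
  simp only [DV]
  cases ht : τ v
  · rcases b_or b d e h with rfl | rfl
    · exact Or.inr (Or.inr ⟨h', rfl, rfl⟩)
    · exact Or.inr (Or.inl ⟨h', rfl, rfl⟩)
  · exact Or.inl ⟨trivial, h, rfl⟩

theorem core_app {φ : N3} (τ : ℕ → Bool) {v o : ℕ} {b d e : Bool} (h : b ≠ d) (h' : ov φ o = v) :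
    DV φ τ (.p o b) (.p o d) ∨ DV φ τ (.a v e) (.p o b) ∨ DV φ τ (.a v e) (.p o d) := by
  simp only [DV]
  cases ht : τ v
  · rcases b_or b d e h with rfl | rfl
    · exact Or.inr (Or.inl ⟨h', rfl, rfl⟩)
    · exact Or.inr (Or.inr ⟨h', rfl, rfl⟩)
  · exact Or.inl ⟨trivial, h, by rw [h', ht]⟩

theorem core_ppc {φ : N3} (τ : ℕ → Bool) {o k : ℕ} {b d : Bool} (h : b ≠ d)
    (h' : k = o ∨ k = nx o) :
    DV φ τ (.p o b) (.p o d) ∨ DV φ τ (.p o b) (.c k) ∨ DV φ τ (.p o d) (.c k) := by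
  simp only [DV]
  cases ht : τ (ov φ o)
  · rcases b_ft b d h with ⟨rfl, rfl⟩ | ⟨rfl, rfl⟩ <;> rcases h' with rfl | rfl
    · exact Or.inr (Or.inl ⟨rfl, Or.inl ⟨rfl, rfl⟩⟩)
    · exact Or.inr (Or.inr ⟨rfl, Or.inr ⟨rfl, rfl⟩⟩)
    · exact Or.inr (Or.inr ⟨rfl, Or.inl ⟨rfl, rfl⟩⟩)
    · exact Or.inr (Or.inl ⟨rfl, Or.inr ⟨rfl, rfl⟩⟩)
  · exact Or.inl ⟨trivial, h, rfl⟩

theorem core_pcc {φ : N3} (τ : ℕ → Bool) {o k k' : ℕ} {b : Bool} (h : k ≠ k')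
    (h1 : k = o ∨ k = nx o) (h2 : k' = o ∨ k' = nx o) :
    DV φ τ (.c k) (.c k') ∨ DV φ τ (.p o b) (.c k) ∨ DV φ τ (.p o b) (.c k') := by
  simp only [DV]
  cases ht : τ (ov φ o)
  · cases b
    · rcases h1 with rfl | rfl
      · exact Or.inr (Or.inl ⟨rfl, Or.inl ⟨rfl, rfl⟩⟩)
      · rcases h2 with rfl | rfl
        · exact Or.inr (Or.inr ⟨rfl, Or.inl ⟨rfl, rfl⟩⟩)
        · exact absurd rfl h
    · rcases h1 with rfl | rfl
      · rcases h2 with rfl | rfl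
        · exact absurd rfl h
        · exact Or.inr (Or.inr ⟨rfl, Or.inr ⟨rfl, rfl⟩⟩)
      · exact Or.inr (Or.inl ⟨rfl, Or.inr ⟨rfl, rfl⟩⟩)
  · left
    rcases h1 with rfl | rfl <;> rcases h2 with rfl | rfl
    · exact absurd rfl h
    · exact Or.inl ⟨rfl, ht⟩
    · exact Or.inr ⟨rfl, ht⟩
    · exact absurd rfl h

theorem core_ccc {φ : N3} {τ : ℕ → Bool} (hτ : ∀ j < φ.length,
    one3 (τ (ov φ (3 * j))) (τ (ov φ (3 * j + 1))) (τ (ov φ (3 * j + 2))) = true) {a b c : ℕ}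
    (h1 : a / 3 = b / 3 ∧ a ≠ b ∧ a < 3 * φ.length) (h2 : b / 3 = c / 3 ∧ b ≠ c ∧ b < 3 * φ.length)
    (h3 : a / 3 = c / 3 ∧ a ≠ c ∧ a < 3 * φ.length) :
    DV φ τ (.c a) (.c b) ∨ DV φ τ (.c b) (.c c) ∨ DV φ τ (.c a) (.c c) := by
  obtain ⟨⟨k, hk, ht⟩, -⟩ := clause_cases hτ h1.2.2
  simp only [DV]
  have e : k = a ∨ k = b ∨ k = c := by omega
  have n : ∀ o, o / 3 = k / 3 → (o = nx k ∨ k = nx o ∨ o = k) := by
    intro o ho
    unfold nx
    omega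
  have n2 : ∀ o o', o / 3 = k / 3 → o' / 3 = k / 3 → o ≠ k → o' ≠ k → o ≠ o' →
      o = nx k ∨ o' = nx k := by
    intro o o' _ _ _ _ _
    unfold nx
    omega
  rcases e with rfl | rfl | rfl
  · rcases n2 b c (by omega) (by omega) (by omega) (by omega) (by omega) with e | e
    · exact Or.inl (Or.inl ⟨e, ht⟩)
    · exact Or.inr (Or.inr (Or.inl ⟨e, ht⟩))
  · rcases n2 a c (by omega) (by omega) (by omega) (by omega) (by omega) with e | e
    · exact Or.inl (Or.inr ⟨e, ht⟩)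
    · exact Or.inr (Or.inl (Or.inl ⟨e, ht⟩))
  · rcases n2 a b (by omega) (by omega) (by omega) (by omega) (by omega) with e | e
    · exact Or.inr (Or.inr (Or.inr ⟨e, ht⟩))
    · exact Or.inr (Or.inl (Or.inr ⟨e, ht⟩))

theorem DV_triangle {φ : N3} {τ : ℕ → Bool} (hτ : ∀ j < φ.length,
    one3 (τ (ov φ (3 * j))) (τ (ov φ (3 * j + 1))) (τ (ov φ (3 * j + 2))) = true) {x y z : Vx}
    (h1 : AV φ x y) (h2 : AV φ y z) (h3 : AV φ x z) : DV φ τ x y ∨ DV φ τ y z ∨ DV φ τ x z := by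
  rcases x with ⟨v, b⟩ | ⟨v, b⟩ | v <;> rcases y with ⟨w, d⟩ | ⟨w, d⟩ | w <;>
    rcases z with ⟨u, e⟩ | ⟨u, e⟩ | u <;> simp only [AV] at h1 h2 h3
  · exact absurd (b_ne_ne _ _ _ h1.2 h2.2 h3.2) not_false
  · -- a a p
    obtain ⟨rfl, hb⟩ := h1
    exact core_aap τ hb h2
  · -- a p a
    obtain ⟨rfl, hb⟩ := h3
    rcases core_aap τ (b := b) (d := e) (e := d) hb h2 with h | h | h
    · exact Or.inr (Or.inr h)
    · exact Or.inr (Or.inl (DV_symm h))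
    · exact Or.inl h
  · -- a p p
    obtain ⟨rfl, hb⟩ := h2
    rcases core_app τ (b := d) (d := e) (e := b) hb h1 with h | h | h
    · exact Or.inr (Or.inl h)
    · exact Or.inl h
    · exact Or.inr (Or.inr h)
  · -- p a a
    obtain ⟨rfl, hb⟩ := h2
    rcases core_aap τ (b := d) (d := e) (e := b) hb h1 with h | h | h
    · exact Or.inr (Or.inl h)
    · exact Or.inr (Or.inr (DV_symm h))
    · exact Or.inl (DV_symm h)
  · -- p a p
    obtain ⟨rfl, hb⟩ := h3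
    rcases core_app τ (b := b) (d := e) (e := d) hb h1 with h | h | h
    · exact Or.inr (Or.inr h)
    · exact Or.inl (DV_symm h)
    · exact Or.inr (Or.inl h)
  · -- p p a
    obtain ⟨rfl, hb⟩ := h1
    rcases core_app τ (b := b) (d := d) (e := e) hb h2 with h | h | h
    · exact Or.inl h
    · exact Or.inr (Or.inr (DV_symm h))
    · exact Or.inr (Or.inl (DV_symm h))
  · exact absurd (b_ne_ne _ _ _ h1.2 h2.2 h3.2) not_false
  · -- p p c
    obtain ⟨rfl, hb⟩ := h1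
    rcases core_ppc τ (φ := φ) (b := b) (d := d) hb h2 with h | h | h
    · exact Or.inl h
    · exact Or.inr (Or.inr h)
    · exact Or.inr (Or.inl h)
  · -- p c p
    obtain ⟨rfl, hb⟩ := h3
    rcases core_ppc τ (φ := φ) (b := b) (d := e) hb h1 with h | h | h
    · exact Or.inr (Or.inr h)
    · exact Or.inl h
    · exact Or.inr (Or.inl (DV_symm h))
  · -- p c c
    rcases core_pcc τ (φ := φ) (b := b) h2.2.1 h1 h3 with h | h | h
    · exact Or.inr (Or.inl h)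
    · exact Or.inl h
    · exact Or.inr (Or.inr h)
  · -- c p p
    obtain ⟨rfl, hb⟩ := h2
    rcases core_ppc τ (φ := φ) (b := d) (d := e) hb h1 with h | h | h
    · exact Or.inr (Or.inl h)
    · exact Or.inl (DV_symm h)
    · exact Or.inr (Or.inr (DV_symm h))
  · -- c p c
    rcases core_pcc τ (φ := φ) (b := d) h3.2.1 h1 h2 with h | h | h
    · exact Or.inr (Or.inr h)
    · exact Or.inl (DV_symm h)
    · exact Or.inr (Or.inl h)
  · -- c c p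
    rcases core_pcc τ (φ := φ) (b := e) h1.2.1 h3 h2 with h | h | h
    · exact Or.inl h
    · exact Or.inr (Or.inr (DV_symm h))
    · exact Or.inr (Or.inl (DV_symm h))
  · exact core_ccc hτ h1 h2 h3

/-- At most one pair of a triple is chosen. -/
theorem DV_triple {φ : N3} {τ : ℕ → Bool} (hτ : ∀ j < φ.length,
    one3 (τ (ov φ (3 * j))) (τ (ov φ (3 * j + 1))) (τ (ov φ (3 * j + 2))) = true) {x y z : Vx}
    (h : (∃ o < 3 * φ.length,
      ((∃ b, x = .a (ov φ o) false ∧ y = .a (ov φ o) true ∧ z = .p o b) ∨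
       (∃ b, x = .a (ov φ o) b ∧ y = .p o false ∧ z = .p o true) ∨
       (x = .p o false ∧ y = .p o true ∧ z = .c o) ∨
       (x = .p o false ∧ y = .p o true ∧ z = .c (nx o)) ∨
       (∃ b, x = .p o b ∧ y = .c o ∧ z = .c (nx o)))) ∨
      ∃ j < φ.length, x = .c (3 * j) ∧ y = .c (3 * j + 1) ∧ z = .c (3 * j + 2)) :
    ¬ (DV φ τ x y ∧ DV φ τ y z) ∧ ¬ (DV φ τ x y ∧ DV φ τ x z) ∧ ¬ (DV φ τ y z ∧ DV φ τ x z) := by
  have hc : ∀ a b : ℕ, a < 3 * φ.length → DV φ τ (.c a) (.c b) → ∃ k, k / 3 = a / 3 ∧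
      τ (ov φ k) = true ∧ ((k = a ∧ b = nx a) ∨ (k = b ∧ a = nx b)) := by
    intro a b ha h
    simp only [DV] at h
    rcases h with ⟨rfl, h⟩ | ⟨rfl, h⟩
    · exact ⟨a, rfl, h, Or.inl ⟨rfl, rfl⟩⟩
    · refine ⟨b, ?_, h, Or.inr ⟨rfl, rfl⟩⟩
      unfold nx
      omega
  rcases h with ⟨o, ho, ⟨d, rfl, rfl, rfl⟩ | ⟨d, rfl, rfl, rfl⟩ | ⟨rfl, rfl, rfl⟩ | ⟨rfl, rfl, rfl⟩ |
    ⟨d, rfl, rfl, rfl⟩⟩ | ⟨j, hj, rfl, rfl, rfl⟩
  · simp only [DV]
    cases d <;> cases τ (ov φ o) <;> simp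
  · simp only [DV]
    cases d <;> cases τ (ov φ o) <;> simp
  · have := nx_ne o
    simp only [DV]
    cases τ (ov φ o) <;> simp [this.symm]
  · have := nx_ne o
    simp only [DV]
    cases τ (ov φ o) <;> simp [this]
  · have hn := nx_ne o
    have hnn : o ≠ nx (nx o) := by unfold nx; omega
    simp only [DV]
    cases hto : τ (ov φ o)
    · cases d <;> simp [hn, hn.symm, hnn]
    · simp
  · have h0 := hc (3 * j) (3 * j + 1) (by omega)
    have h1 := hc (3 * j + 1) (3 * j + 2) (by omega)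
    have h2 := hc (3 * j) (3 * j + 2) (by omega)
    have hu := (clause_cases hτ (show 3 * j < 3 * φ.length by omega)).2
    unfold nx at h0 h1 h2
    refine ⟨?_, ?_, ?_⟩
    · rintro ⟨a, b⟩
      obtain ⟨k, k1, k2, k3⟩ := h0 a
      obtain ⟨l, l1, l2, l3⟩ := h1 b
      have := hu k l (by omega) (by omega) k2 l2
      omega
    · rintro ⟨a, b⟩
      obtain ⟨k, k1, k2, k3⟩ := h0 a
      obtain ⟨l, l1, l2, l3⟩ := h2 b
      have := hu k l (by omega) (by omega) k2 l2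
      omega
    · rintro ⟨a, b⟩
      obtain ⟨k, k1, k2, k3⟩ := h1 a
      obtain ⟨l, l1, l2, l3⟩ := h2 b
      have := hu k l (by omega) (by omega) k2 l2
      omega

theorem hy_of_p13 {φ : N3} (h : P13 φ) : HY (hyp φ) := by
  classical
  rw [p13_iff] at h
  obtain ⟨τ, hτ⟩ := h
  have key : ∀ x y : Vx, (∃ u v, enc x = enc u ∧ enc y = enc v ∧ DV φ τ u v) ↔ DV φ τ x y := by
    intro x y
    constructor
    · rintro ⟨u, v, h1, h2, h3⟩
      rw [enc_inj h1, enc_inj h2]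
      exact h3
    · intro h
      exact ⟨x, y, rfl, rfl, h⟩
  refine ⟨fun x y => decide (∃ u v, x = enc u ∧ y = enc v ∧ DV φ τ u v), ?_, ?_, ?_⟩
  · intro x y
    rw [decide_eq_decide]
    exact ⟨fun ⟨u, v, h1, h2, h3⟩ => ⟨v, u, h2, h1, DV_symm h3⟩,
      fun ⟨u, v, h1, h2, h3⟩ => ⟨v, u, h2, h1, DV_symm h3⟩⟩
  · intro t ht
    obtain ⟨x, y, z, rfl, h⟩ := mem_hyp' ht
    simp only [decide_eq_true_eq, key]
    exact DV_triple hτ h
  · intro x y z h1 h2 h3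
    obtain ⟨a, b, rfl, rfl, k1⟩ := AV_of h1
    obtain ⟨b', c, e1, rfl, k2⟩ := AV_of h2
    obtain ⟨a', c', e2, e3, k3⟩ := AV_of h3
    rw [← enc_inj e1] at k2
    rw [← enc_inj e2, ← enc_inj e3] at k3
    simp only [decide_eq_true_eq, key]
    exact DV_triangle hτ k1 k2 k3

theorem p13_iff_hy (φ : N3) : P13 φ ↔ HY (hyp φ) := ⟨hy_of_p13, p13_of_hy⟩

end Pool.Agent.R544.CG
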