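import Pool.Agent.R544.CG.Char2
import Pool.Agent.R544.CG.Hyp
import Pool.Agent.R544.EN.Main

/-!
# Clique graphs among split graphs with stable side of degree 3: the reduction and membership in NP
-/

set_option autoImplicit false

namespace Pool.Agent.R544.CG

open Pool.Agent.NPC Pool.Agent.R544
open Pool.Agent.R544.TF (pp_exlt pp_alllt sz_perm)

/-- Two different vertices with a common neighbour in the stable part. -/
def ShI (I : Inst) (x y : ℕ) : Prop := x ≠ y ∧ ∃ s ∈ I.2.1, Ad I s x ∧ Ad I s y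

/-- The condition on the set of dropped pairs. -/
def DropI (I : Inst) (D : ℕ → ℕ → Prop) : Prop :=
  (∀ x y, D x y → D y x) ∧
  (∀ s ∈ I.2.1, ∀ x ∈ I.1, ∀ y ∈ I.1, ∀ z ∈ I.1, x ≠ y → y ≠ z → x ≠ z → Ad I s x → Ad I s y →
    Ad I s z → ¬ (D x y ∧ D y z)) ∧
  ∀ x ∈ I.1, ∀ y ∈ I.1, ∀ z ∈ I.1, ShI I x y → ShI I y z → ShI I x z → D x y ∨ D y z ∨ D x z

theorem spl_of {I : Inst} (h : IsSplit33 I) : Spl (graph I) {v | v.1 ∈ I.1} := by
  obtain ⟨h1, h2, h3, h4, h5⟩ := h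
  have hS : ∀ s : {v : ℕ // v ∈ I.1 ++ I.2.1}, s ∉ ({v | v.1 ∈ I.1} : Set _) → s.1 ∈ I.2.1 := by
    intro s hs
    rcases List.mem_append.1 s.2 with h | h
    · exact absurd h hs
    · exact h
  refine ⟨?_, ?_, ?_⟩
  · intro x hx y hy hne
    refine ⟨hne, ?_⟩
    rcases h3 x.1 hx y.1 hy with h | h
    · exact absurd (Subtype.ext h) hne
    · exact h
  · intro s hs t ht hst
    exact h4 s.1 (hS s hs) t.1 (hS t ht) hst.2
  · intro s hs
    have hs' := hS s hs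
    have h6 := h5 s.1 hs'
    rw [List.length_eq_three] at h6
    obtain ⟨x, y, z, hxyz⟩ := h6
    have hnd : (I.1.filter (fun x => decide (Ad I s.1 x))).Nodup :=
      (List.nodup_append.1 h1).1.filter _
    rw [hxyz] at hnd
    simp only [List.nodup_cons, List.mem_cons, List.not_mem_nil, or_false, not_or,
      List.nodup_nil] at hnd
    have hm : ∀ v, (v ∈ I.1 ∧ Ad I s.1 v) ↔ v = x ∨ v = y ∨ v = z := by
      intro v
      have : v ∈ I.1.filter (fun x => decide (Ad I s.1 x)) ↔ v ∈ [x, y, z] := by rw [hxyz]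
      simpa using this
    have hK : ∀ v, (v = x ∨ v = y ∨ v = z) → v ∈ I.1 ++ I.2.1 := fun v hv =>
      List.mem_append_left _ ((hm v).2 hv).1
    refine ⟨⟨x, hK x (Or.inl rfl)⟩, ⟨y, hK y (Or.inr (Or.inl rfl))⟩,
      ⟨z, hK z (Or.inr (Or.inr rfl))⟩, fun h => hnd.1.1 (congrArg Subtype.val h),
      fun h => hnd.2.1 (congrArg Subtype.val h), fun h => hnd.1.2 (congrArg Subtype.val h), ?_⟩
    intro v
    have e : (v = ⟨x, hK x (Or.inl rfl)⟩ ∨ v = ⟨y, hK y (Or.inr (Or.inl rfl))⟩ ∨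
        v = ⟨z, hK z (Or.inr (Or.inr rfl))⟩) ↔ (v.1 = x ∨ v.1 = y ∨ v.1 = z) := by
      simp only [Subtype.ext_iff]
    rw [e, ← hm]
    constructor
    · rintro ⟨-, h⟩
      refine ⟨?_, h⟩
      by_contra hv
      exact h4 s.1 hs' v.1 (hS v hv) h
    · rintro ⟨hv, h⟩
      exact ⟨fun he => hs (he ▸ hv), h⟩

theorem cliqueGraph_iff_drop {I : Inst} (h : IsSplit33 I) :
    IsCliqueGraph (graph I) ↔ ∃ D, DropI I D := by
  have hspl := spl_of h
  have hfin : Finite {v : ℕ // v ∈ I.1 ++ I.2.1} :=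
    (List.finite_toSet (I.1 ++ I.2.1)).to_subtype
  rw [isCliqueGraph_iff hspl]
  obtain ⟨h1, h2, h3, h4, h5⟩ := h
  have hS : ∀ s : {v : ℕ // v ∈ I.1 ++ I.2.1}, s ∉ ({v | v.1 ∈ I.1} : Set _) → s.1 ∈ I.2.1 := by
    intro s hs
    rcases List.mem_append.1 s.2 with h | h
    · exact absurd h hs
    · exact h
  have hS' : ∀ s ∈ I.2.1, s ∉ I.1 := fun s hs hs' => (List.nodup_append.1 h1).2.2 s hs' s hs rfl
  have mk : ∀ s ∈ I.2.1, ∀ x ∈ I.1, (hs : s ∈ I.1 ++ I.2.1) → (hx : x ∈ I.1 ++ I.2.1) →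
      Ad I s x → (graph I).Adj ⟨s, hs⟩ ⟨x, hx⟩ := by
    intro s hs x hx hs' hx' h
    exact ⟨fun e => hS' s hs (by rw [show s = x from congrArg Subtype.val e]; exact hx), h⟩
  constructor
  · rintro ⟨D, hsym, hD1, hD2⟩
    refine ⟨fun x y => ∃ hx hy, D ⟨x, hx⟩ ⟨y, hy⟩, ?_, ?_, ?_⟩
    · rintro x y ⟨hx, hy, hD⟩
      exact ⟨hy, hx, hsym _ _ hD⟩
    · rintro s hs x hx y hy z hz hxy hyz hxz hsx hsy hsz ⟨⟨ex, ey, d1⟩, ⟨_, ez, d2⟩⟩
      have es : s ∈ I.1 ++ I.2.1 := List.mem_append_right _ hs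
      obtain ⟨w, hw⟩ := hspl.nb_of (s := ⟨s, es⟩) (hS' s hs) (mk s hs x hx es ex hsx)
        (mk s hs y hy es ey hsy) (fun e => hxy (congrArg Subtype.val e))
      have hzw : (⟨z, ez⟩ : {v : ℕ // v ∈ I.1 ++ I.2.1}) = w := by
        rcases (hw.2.2.2.2 ⟨z, ez⟩).1 (mk s hs z hz es ez hsz) with e | e | e
        · exact absurd (congrArg Subtype.val e).symm hxz
        · exact absurd (congrArg Subtype.val e).symm hyz
        · exact e
      subst hzw
      exact hD1 _ _ _ _ hw ⟨d1, d2⟩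
    · intro x hx y hy z hz hxy hyz hxz
      have ex : x ∈ I.1 ++ I.2.1 := List.mem_append_left _ hx
      have ey : y ∈ I.1 ++ I.2.1 := List.mem_append_left _ hy
      have ez : z ∈ I.1 ++ I.2.1 := List.mem_append_left _ hz
      have tr : ∀ x ∈ I.1, ∀ y ∈ I.1, (ex : x ∈ I.1 ++ I.2.1) → (ey : y ∈ I.1 ++ I.2.1) →
          ShI I x y → Sh (graph I) {v | v.1 ∈ I.1} ⟨x, ex⟩ ⟨y, ey⟩ := by
        rintro x hx y hy ex ey ⟨hne, s, hs, h1, h2⟩
        exact ⟨fun e => hne (congrArg Subtype.val e), ⟨s, List.mem_append_right _ hs⟩,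
          hS' s hs, mk s hs x hx _ _ h1, mk s hs y hy _ _ h2⟩
      rcases hD2 ⟨x, ex⟩ ⟨y, ey⟩ ⟨z, ez⟩ (tr x hx y hy ex ey hxy) (tr y hy z hz ey ez hyz)
        (tr x hx z hz ex ez hxz) with h | h | h
      · exact Or.inl ⟨_, _, h⟩
      · exact Or.inr (Or.inl ⟨_, _, h⟩)
      · exact Or.inr (Or.inr ⟨_, _, h⟩)
  · rintro ⟨D, hsym, hD1, hD2⟩
    have inK : ∀ s x : {v : ℕ // v ∈ I.1 ++ I.2.1}, s.1 ∈ I.2.1 → Ad I s.1 x.1 → x.1 ∈ I.1 := by
      intro s x hs hsx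
      by_contra hx
      exact h4 s.1 hs x.1 (hS x hx) hsx
    refine ⟨fun x y => D x.1 y.1, fun x y h => hsym _ _ h, ?_, ?_⟩
    · intro s x y z hn
      have hs := hS s hn.1
      have ax := ((hn.2.2.2.2 x).2 (Or.inl rfl)).2
      have ay := ((hn.2.2.2.2 y).2 (Or.inr (Or.inl rfl))).2
      have az := ((hn.2.2.2.2 z).2 (Or.inr (Or.inr rfl))).2
      exact hD1 s.1 hs x.1 (inK s x hs ax) y.1 (inK s y hs ay) z.1 (inK s z hs az)
        (fun e => hn.2.1 (Subtype.ext e)) (fun e => hn.2.2.1 (Subtype.ext e))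
        (fun e => hn.2.2.2.1 (Subtype.ext e)) ax ay az
    · intro x y z hxy hyz hxz
      have tr : ∀ x y, Sh (graph I) {v | v.1 ∈ I.1} x y → ShI I x.1 y.1 ∧ x.1 ∈ I.1 ∧ y.1 ∈ I.1 := by
        rintro x y ⟨hne, s, hs, h1, h2⟩
        exact ⟨⟨fun e => hne (Subtype.ext e), s.1, hS s hs, h1.2, h2.2⟩,
          inK s x (hS s hs) h1.2, inK s y (hS s hs) h2.2⟩
      exact hD2 x.1 (tr _ _ hxy).2.1 y.1 (tr _ _ hxy).2.2 z.1 (tr _ _ hyz).2.2 (tr _ _ hxy).1
        (tr _ _ hyz).1 (tr _ _ hxz).1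

/-! ### The instance -/

/-- The elements of the triples. -/
def els (L : N3) : List ℕ := (L.flatMap (fun t => [t.1, t.2.1, t.2.2])).dedup

/-- The edges. -/
def Arc (L : N3) (u v : ℕ) : Prop :=
  (u % 2 = 0 ∧ v % 2 = 0 ∧ u ≠ v) ∨ (u % 2 = 1 ∧ v % 2 = 0 ∧ (v / 2 = (tr L (u / 2)).1 ∨
    v / 2 = (tr L (u / 2)).2.1 ∨ v / 2 = (tr L (u / 2)).2.2))

/-- The two parts. -/
def lK (L : N3) : List ℕ := (els L).map (fun x => 2 * x)
def lS (L : N3) : List ℕ := (List.range L.length).map (fun i => 2 * i + 1)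

open Classical in
/-- The graph. -/
noncomputable def inst (L : N3) : Inst :=
  (lK L, lS L, ((lK L ++ lS L) ×ˢ (lK L ++ lS L)).filter (fun e => decide (Arc L e.1 e.2)))

theorem mem_els {L : N3} {x : ℕ} : x ∈ els L ↔ ∃ t ∈ L, x = t.1 ∨ x = t.2.1 ∨ x = t.2.2 := by
  unfold els
  rw [List.mem_dedup, List.mem_flatMap]
  simp

theorem mem_lK {L : N3} {u : ℕ} : u ∈ lK L ↔ ∃ x ∈ els L, u = 2 * x := by
  unfold lK
  rw [List.mem_map]
  exact ⟨fun ⟨x, h, e⟩ => ⟨x, h, e.symm⟩, fun ⟨x, h, e⟩ => ⟨x, h, e.symm⟩⟩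

theorem mem_lS {L : N3} {u : ℕ} : u ∈ lS L ↔ ∃ i < L.length, u = 2 * i + 1 := by
  unfold lS
  rw [List.mem_map]
  exact ⟨fun ⟨x, h, e⟩ => ⟨x, List.mem_range.1 h, e.symm⟩,
    fun ⟨x, h, e⟩ => ⟨x, List.mem_range.2 h, e.symm⟩⟩

theorem mem_E {L : N3} {u v : ℕ} : (u, v) ∈ (inst L).2.2 ↔
    u ∈ lK L ++ lS L ∧ v ∈ lK L ++ lS L ∧ Arc L u v := by
  unfold inst
  simp only [List.mem_filter, List.mem_product, decide_eq_true_eq, and_assoc]

theorem ad_KK {L : N3} {x y : ℕ} (hx : x ∈ lK L) (hy : y ∈ lK L) : Ad (inst L) x y ↔ x ≠ y := by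
  obtain ⟨a, -, ha⟩ := mem_lK.1 hx
  obtain ⟨b, -, hb⟩ := mem_lK.1 hy
  unfold Ad
  rw [mem_E, mem_E]
  unfold Arc
  constructor
  · rintro (⟨-, -, h⟩ | ⟨-, -, h⟩) <;> omega
  · intro h
    exact Or.inl ⟨List.mem_append_left _ hx, List.mem_append_left _ hy, Or.inl (by omega)⟩

theorem ad_SS {L : N3} {s t : ℕ} (hs : s ∈ lS L) (ht : t ∈ lS L) : ¬ Ad (inst L) s t := by
  obtain ⟨a, -, ha⟩ := mem_lS.1 hs
  obtain ⟨b, -, hb⟩ := mem_lS.1 ht
  unfold Ad
  rw [mem_E, mem_E]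
  unfold Arc
  rintro (⟨-, -, h⟩ | ⟨-, -, h⟩) <;> omega

theorem ad_SK {L : N3} {i x : ℕ} (hi : i < L.length) (hx : x ∈ els L) :
    Ad (inst L) (2 * i + 1) (2 * x) ↔ In3 x (tr L i) := by
  unfold Ad
  rw [mem_E, mem_E]
  unfold Arc In3
  have e1 : (2 * i + 1) / 2 = i := by omega
  have e2 : 2 * x / 2 = x := by omega
  rw [e1, e2]
  constructor
  · rintro (⟨-, -, h⟩ | ⟨-, -, h⟩) <;> omega
  · intro h
    exact Or.inl ⟨List.mem_append_right _ (mem_lS.2 ⟨i, hi, rfl⟩),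
      List.mem_append_left _ (mem_lK.2 ⟨x, hx, rfl⟩), Or.inr ⟨by omega, by omega, h⟩⟩

theorem in3_els {L : N3} {i x : ℕ} (hi : i < L.length) (hx : In3 x (tr L i)) : x ∈ els L :=
  mem_els.2 ⟨_, tr_mem hi, hx⟩

theorem isSplit_inst {L : N3} (hd : Dist3 L) : IsSplit33 (inst L) := by
  have hKS : (lK L ++ lS L).Nodup := by
    rw [List.nodup_append]
    refine ⟨(List.nodup_dedup _).map (fun a b h => by simpa using h),
      List.nodup_range.map (fun a b h => by simpa using h), ?_⟩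
    intro a ha b hb
    obtain ⟨x, -, rfl⟩ := mem_lK.1 ha
    obtain ⟨y, -, rfl⟩ := mem_lS.1 hb
    omega
  refine ⟨hKS, ?_, ?_, ?_, ?_⟩
  · rintro ⟨u, v⟩ he
    rw [mem_E] at he
    refine ⟨he.1, he.2.1, ?_⟩
    rintro (rfl : u = v)
    have h := he.2.2
    unfold Arc at h
    omega
  · intro x hx y hy
    by_cases h : x = y
    · exact Or.inl h
    · exact Or.inr ((ad_KK hx hy).2 h)
  · intro s hs t ht
    exact ad_SS hs ht
  · intro s hs
    obtain ⟨i, hi, rfl⟩ := mem_lS.1 hs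
    obtain ⟨d1, d2, d3⟩ := hd _ (tr_mem hi)
    have hp : ((lK L).filter (fun x => decide (Ad (inst L) (2 * i + 1) x))).Perm
        [2 * (tr L i).1, 2 * (tr L i).2.1, 2 * (tr L i).2.2] := by
      rw [List.perm_ext_iff_of_nodup ((List.nodup_append.1 hKS).1.filter _) (by
        simp only [List.nodup_cons, List.mem_cons, List.not_mem_nil, or_false, not_or,
          List.nodup_nil, not_false_eq_true, and_true]
        omega)]
      intro v
      simp only [List.mem_filter, decide_eq_true_eq, List.mem_cons, List.not_mem_nil, or_false]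
      constructor
      · rintro ⟨hv, h⟩
        obtain ⟨x, hx, rfl⟩ := mem_lK.1 hv
        rw [ad_SK hi hx] at h
        unfold In3 at h
        omega
      · intro h
        have h' : ∃ x, v = 2 * x ∧ In3 x (tr L i) := by
          unfold In3
          rcases h with h | h | h
          · exact ⟨_, h, Or.inl rfl⟩
          · exact ⟨_, h, Or.inr (Or.inl rfl)⟩
          · exact ⟨_, h, Or.inr (Or.inr rfl)⟩
        obtain ⟨x, rfl, hx⟩ := h'
        exact ⟨mem_lK.2 ⟨x, in3_els hi hx, rfl⟩, (ad_SK hi (in3_els hi hx)).2 hx⟩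
    exact hp.length_eq

theorem shI_iff {L : N3} {x y : ℕ} (hx : x ∈ els L) (hy : y ∈ els L) :
    ShI (inst L) (2 * x) (2 * y) ↔ ShL L x y := by
  unfold ShI ShL
  refine and_congr (by omega) ?_
  constructor
  · rintro ⟨s, hs, h1, h2⟩
    obtain ⟨i, hi, rfl⟩ := mem_lS.1 hs
    exact ⟨_, tr_mem hi, (ad_SK hi hx).1 h1, (ad_SK hi hy).1 h2⟩
  · rintro ⟨t, ht, h1, h2⟩
    obtain ⟨i, hi, rfl⟩ := List.getElem_of_mem ht
    have e : tr L i = L[i] := by
      unfold tr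
      rw [List.getD_eq_getElem _ _ hi]
    rw [← e] at h1 h2
    exact ⟨2 * i + 1, mem_lS.2 ⟨i, hi, rfl⟩, (ad_SK hi hx).2 h1, (ad_SK hi hy).2 h2⟩

theorem dropI_iff {L : N3} (hd : Dist3 L) : (∃ D, DropI (inst L) D) ↔ HY L := by
  classical
  constructor
  · rintro ⟨D, hsym, h1, h2⟩
    refine ⟨fun x y => decide (D (2 * x) (2 * y)), ?_, ?_, ?_⟩
    · intro x y
      rw [decide_eq_decide]
      exact ⟨hsym _ _, hsym _ _⟩
    · intro t ht
      obtain ⟨i, hi, rfl⟩ := List.getElem_of_mem ht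
      have e : L[i] = tr L i := by
        unfold tr
        rw [List.getD_eq_getElem _ _ hi]
      rw [e]
      obtain ⟨d1, d2, d3⟩ := hd _ (tr_mem hi)
      have i1 : In3 (tr L i).1 (tr L i) := Or.inl rfl
      have i2 : In3 (tr L i).2.1 (tr L i) := Or.inr (Or.inl rfl)
      have i3 : In3 (tr L i).2.2 (tr L i) := Or.inr (Or.inr rfl)
      have k1 := mem_lK.2 ⟨_, in3_els hi i1, rfl⟩
      have k2 := mem_lK.2 ⟨_, in3_els hi i2, rfl⟩
      have k3 := mem_lK.2 ⟨_, in3_els hi i3, rfl⟩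
      have a1 := (ad_SK hi (in3_els hi i1)).2 i1
      have a2 := (ad_SK hi (in3_els hi i2)).2 i2
      have a3 := (ad_SK hi (in3_els hi i3)).2 i3
      have hs : 2 * i + 1 ∈ lS L := mem_lS.2 ⟨i, hi, rfl⟩
      simp only [decide_eq_true_eq]
      refine ⟨?_, ?_, ?_⟩
      · exact h1 _ hs _ k1 _ k2 _ k3 (by omega) (by omega) (by omega) a1 a2 a3
      · rintro ⟨e1, e2⟩
        exact h1 _ hs _ k2 _ k1 _ k3 (by omega) (by omega) (by omega) a2 a1 a3 ⟨hsym _ _ e1, e2⟩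
      · rintro ⟨e1, e2⟩
        exact h1 _ hs _ k2 _ k3 _ k1 (by omega) (by omega) (by omega) a2 a3 a1 ⟨e1, hsym _ _ e2⟩
    · intro x y z hxy hyz hxz
      have mem : ∀ {x y}, ShL L x y → x ∈ els L ∧ y ∈ els L := by
        rintro x y ⟨-, t, ht, h1, h2⟩
        exact ⟨mem_els.2 ⟨t, ht, h1⟩, mem_els.2 ⟨t, ht, h2⟩⟩
      obtain ⟨mx, my⟩ := mem hxy
      obtain ⟨-, mz⟩ := mem hyz
      simp only [decide_eq_true_eq]
      exact h2 _ (mem_lK.2 ⟨x, mx, rfl⟩) _ (mem_lK.2 ⟨y, my, rfl⟩) _ (mem_lK.2 ⟨z, mz, rfl⟩)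
        ((shI_iff mx my).2 hxy) ((shI_iff my mz).2 hyz) ((shI_iff mx mz).2 hxz)
  · rintro ⟨D, hsym, h1, h2⟩
    refine ⟨fun u v => D (u / 2) (v / 2) = true, ?_, ?_, ?_⟩
    · intro x y h
      rw [hsym]
      exact h
    · intro s hs x hx y hy z hz hxy hyz hxz ax ay az
      obtain ⟨i, hi, rfl⟩ := mem_lS.1 hs
      obtain ⟨x, mx, rfl⟩ := mem_lK.1 hx
      obtain ⟨y, my, rfl⟩ := mem_lK.1 hy
      obtain ⟨z, mz, rfl⟩ := mem_lK.1 hz
      rw [ad_SK hi mx] at ax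
      rw [ad_SK hi my] at ay
      rw [ad_SK hi mz] at az
      have hxy' : x ≠ y := by omega
      have hyz' : y ≠ z := by omega
      have hxz' : x ≠ z := by omega
      have e : ∀ x : ℕ, 2 * x / 2 = x := fun x => by omega
      simp only [e]
      obtain ⟨c1, c2, c3⟩ := h1 _ (tr_mem hi)
      rintro ⟨f1, f2⟩
      unfold In3 at ax ay az
      rcases ax with ax | ax | ax <;> rcases ay with ay | ay | ay <;>
        rcases az with az | az | az
      all_goals first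
        | exact absurd (ax.trans ay.symm) hxy'
        | exact absurd (ay.trans az.symm) hyz'
        | exact absurd (ax.trans az.symm) hxz'
        | skip
      all_goals rw [ax, ay] at f1
      all_goals rw [ay, az] at f2
      · exact c1 ⟨f1, f2⟩
      · exact c3 ⟨by rw [hsym]; exact f2, f1⟩
      · exact c2 ⟨by rw [hsym]; exact f1, f2⟩
      · exact c3 ⟨f1, by rw [hsym]; exact f2⟩
      · exact c2 ⟨f2, by rw [hsym]; exact f1⟩
      · exact c1 ⟨by rw [hsym]; exact f2, by rw [hsym]; exact f1⟩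
    · intro x hx y hy z hz hxy hyz hxz
      obtain ⟨x, mx, rfl⟩ := mem_lK.1 hx
      obtain ⟨y, my, rfl⟩ := mem_lK.1 hy
      obtain ⟨z, mz, rfl⟩ := mem_lK.1 hz
      have e : ∀ x : ℕ, 2 * x / 2 = x := fun x => by omega
      simp only [e]
      exact h2 x y z ((shI_iff mx my).1 hxy) ((shI_iff my mz).1 hyz) ((shI_iff mx mz).1 hxz)

/-- The reduction. -/
noncomputable def red (φ : N3) : Inst := inst (hyp φ)

theorem red_correct (φ : N3) : P13 φ ↔ CliqueGraphRecognition (red φ) := by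
  rw [p13_iff_hy, ← dropI_iff (dist3_hyp φ)]
  unfold CliqueGraphRecognition red
  rw [cliqueGraph_iff_drop (isSplit_inst (dist3_hyp φ))]
  exact ⟨fun h => ⟨isSplit_inst (dist3_hyp φ), h⟩, fun h => h.2⟩

end Pool.Agent.R544.CG
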