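import Pool.Agent.R544.CG.Main

/-!
# Clique graphs among split graphs with stable side of degree 3: `NP`-completeness
-/

set_option autoImplicit false

namespace Pool.Agent.R544.CG

open Pool.Agent.NPC Pool.Agent.R544

theorem poly_nx {α : Type} [TEnc α] {f : α → ℕ} (hf : NPC.Poly f) :
    NPC.Poly (fun a => nx (f a)) := by
  unfold nx
  fun_prop

attribute [fun_prop] poly_nx

theorem poly_k4 {α : Type} [TEnc α] {f g h k : α → ℕ} (hf : NPC.Poly f) (hg : NPC.Poly g)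
    (hh : NPC.Poly h) (hk : NPC.Poly k) : NPC.Poly (fun x => k4 (f x) (g x) (h x) (k x)) := by
  unfold k4
  fun_prop

theorem poly_hyp : NPC.Poly hyp := by
  unfold hyp
  have hn : UPoly (fun φ : N3 => φ.length) := UPoly.length NPC.Poly.id
  have hn3 : UPoly (fun φ : N3 => 3 * φ.length) := UPoly.mul (UPoly.const 3) hn
  refine NPC.Poly.append ?_ ?_
  · exact NPC.Poly.flatMap (l := fun φ : N3 => List.range (3 * φ.length))
      (F := fun φ o => k4 (6 * ov φ o) (6 * ov φ o + 3) (6 * o + 1) (6 * o + 4) ++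
        k4 (6 * o + 1) (6 * o + 4) (3 * o + 2) (3 * nx o + 2)) hn3.range
      (NPC.Poly.append (poly_k4 (by fun_prop) (by fun_prop) (by fun_prop) (by fun_prop))
        (poly_k4 (by fun_prop) (by fun_prop) (by fun_prop) (by fun_prop)))
  · exact NPC.Poly.map (l := fun φ : N3 => List.range φ.length)
      (F := fun _ j => (9 * j + 2, 9 * j + 5, 9 * j + 8)) hn.range (by fun_prop)

theorem poly_lK : NPC.Poly lK := by
  unfold lK els
  have h : NPC.Poly (fun L : N3 => (L.flatMap (fun t => [t.1, t.2.1, t.2.2])).dedup) := by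
    fun_prop
  exact NPC.Poly.map (l := fun L : N3 => (L.flatMap (fun t => [t.1, t.2.1, t.2.2])).dedup)
    (F := fun _ x => 2 * x) h (by fun_prop)

theorem poly_lS : NPC.Poly lS := by
  unfold lS
  have hn : UPoly (fun φ : N3 => φ.length) := UPoly.length NPC.Poly.id
  exact NPC.Poly.map (l := fun φ : N3 => List.range φ.length)
      (F := fun _ j => 2 * j + 1) hn.range (by fun_prop)

theorem pp_Arc : PP (fun x : N3 × (ℕ × ℕ) => Arc x.1 x.2.1 x.2.2) := by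
  unfold Arc
  refine PP.or ?_ ?_
  · exact PP.and (PP.eq (by fun_prop) (by fun_prop)) (PP.and (PP.eq (by fun_prop) (by fun_prop))
      (PP.ne (by fun_prop) (by fun_prop)))
  · exact PP.and (PP.eq (by fun_prop) (by fun_prop)) (PP.and (PP.eq (by fun_prop) (by fun_prop))
      (PP.or (PP.eq (by fun_prop) (by fun_prop)) (PP.or (PP.eq (by fun_prop) (by fun_prop))
        (PP.eq (by fun_prop) (by fun_prop)))))

theorem poly_inst : NPC.Poly inst := by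
  classical
  have h1 := poly_lK
  have h2 := poly_lS
  have h3 : NPC.Poly (fun L : N3 => lK L ++ lS L) := NPC.Poly.append h1 h2
  have h4 : NPC.Poly (fun L : N3 => (lK L ++ lS L) ×ˢ (lK L ++ lS L)) := by fun_prop
  exact NPC.Poly.pair h1 (NPC.Poly.pair h2 (PP.filter
    (l := fun L : N3 => (lK L ++ lS L) ×ˢ (lK L ++ lS L))
    (r := fun (L : N3) (e : ℕ × ℕ) => Arc L e.1 e.2) h4 pp_Arc))

theorem poly_red : NPC.Poly red := poly_inst.comp poly_hyp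

theorem hardPr_CG : HardPr IsSplit33 CliqueGraphRecognition :=
  hardPr_P13.trans poly_red (fun φ _ => isSplit_inst (dist3_hyp φ)) fun φ _ => red_correct φ

/-! ### Membership in NP -/

theorem pp_Ad {α : Type} [TEnc α] {I : α → Inst} {f g : α → ℕ} (hI : NPC.Poly I)
    (hf : NPC.Poly f) (hg : NPC.Poly g) : PP (fun a => Ad (I a) (f a) (g a)) := by
  unfold Ad
  exact PP.or (PP.mem (by fun_prop) (by fun_prop)) (PP.mem (by fun_prop) (by fun_prop))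

theorem pp_ShI {α : Type} [TEnc α] {I : α → Inst} {f g : α → ℕ} (hI : NPC.Poly I)
    (hf : NPC.Poly f) (hg : NPC.Poly g) : PP (fun a => ShI (I a) (f a) (g a)) := by
  unfold ShI
  refine PP.and (PP.ne hf hg) ?_
  refine PP.bex (l := fun a => (I a).2.1) (r := fun a s => Ad (I a) s (f a) ∧ Ad (I a) s (g a))
    (by fun_prop) ?_
  exact PP.and (pp_Ad (by fun_prop) (by fun_prop) (by fun_prop))
    (pp_Ad (by fun_prop) (by fun_prop) (by fun_prop))

theorem pp_isSplit : PP IsSplit33 := by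
  unfold IsSplit33
  refine PP.and (Pool.Agent.Y592.OP.pp_nodup (by fun_prop)) (PP.and ?_ (PP.and ?_ (PP.and ?_ ?_)))
  · exact PP.ball (l := fun I : Inst => I.2.2) (r := fun I e => e.1 ∈ I.1 ++ I.2.1 ∧
      e.2 ∈ I.1 ++ I.2.1 ∧ e.1 ≠ e.2) (by fun_prop) (PP.and (PP.mem (by fun_prop) (by fun_prop))
      (PP.and (PP.mem (by fun_prop) (by fun_prop)) (PP.ne (by fun_prop) (by fun_prop))))
  · refine PP.ball (l := fun I : Inst => I.1) (r := fun I x => ∀ y ∈ I.1, x = y ∨ Ad I x y)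
      (by fun_prop) ?_
    exact PP.ball (l := fun x : Inst × ℕ => x.1.1) (r := fun x y => x.2 = y ∨ Ad x.1 x.2 y)
      (by fun_prop) (PP.or (PP.eq (by fun_prop) (by fun_prop))
      (pp_Ad (by fun_prop) (by fun_prop) (by fun_prop)))
  · refine PP.ball (l := fun I : Inst => I.2.1) (r := fun I x => ∀ y ∈ I.2.1, ¬ Ad I x y)
      (by fun_prop) ?_
    exact PP.ball (l := fun x : Inst × ℕ => x.1.2.1) (r := fun x y => ¬ Ad x.1 x.2 y)
      (by fun_prop) (PP.not (pp_Ad (by fun_prop) (by fun_prop) (by fun_prop)))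
  · refine PP.ball (l := fun I : Inst => I.2.1) (r := fun I s =>
      (I.1.filter (fun x => decide (Ad I s x))).length = 3) (by fun_prop) ?_
    refine PP.eq (NPC.Poly.length ?_) (NPC.Poly.const 3)
    exact PP.filter (l := fun x : Inst × ℕ => x.1.1) (r := fun x y => Ad x.1 x.2 y) (by fun_prop)
      (pp_Ad (by fun_prop) (by fun_prop) (by fun_prop))

/-- A pair of the list, in one of the two orders. -/
def InW (W : List (ℕ × ℕ)) (x y : ℕ) : Prop := (x, y) ∈ W ∨ (y, x) ∈ W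

theorem pp_InW {α : Type} [TEnc α] {W : α → List (ℕ × ℕ)} {f g : α → ℕ} (hW : NPC.Poly W)
    (hf : NPC.Poly f) (hg : NPC.Poly g) : PP (fun a => InW (W a) (f a) (g a)) := by
  unfold InW
  exact PP.or (PP.mem (by fun_prop) (by fun_prop)) (PP.mem (by fun_prop) (by fun_prop))

/-- The test of a certificate. -/
def Ver (I : Inst) (W : List (ℕ × ℕ)) : Prop :=
  IsSplit33 I ∧
  (∀ x ∈ I.1, ∀ y ∈ I.1, ∀ z ∈ I.1, ∀ s ∈ I.2.1, ¬ ((x ≠ y ∧ y ≠ z ∧ x ≠ z) ∧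
    (Ad I s x ∧ Ad I s y ∧ Ad I s z) ∧ InW W x y ∧ InW W y z)) ∧
  ∀ x ∈ I.1, ∀ y ∈ I.1, ∀ z ∈ I.1, (¬ (ShI I x y ∧ ShI I y z ∧ ShI I x z)) ∨
    (InW W x y ∨ InW W y z ∨ InW W x z)

theorem pp_ver : PP (fun x : Inst × List (ℕ × ℕ) => Ver x.1 x.2) := by
  unfold Ver
  refine PP.and (pp_isSplit.comp (by fun_prop)) (PP.and ?_ ?_)
  · refine PP.ball (l := fun x : Inst × List (ℕ × ℕ) => x.1.1) (r := fun w x => ∀ y ∈ w.1.1,
      ∀ z ∈ w.1.1, ∀ s ∈ w.1.2.1, ¬ ((x ≠ y ∧ y ≠ z ∧ x ≠ z) ∧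
      (Ad w.1 s x ∧ Ad w.1 s y ∧ Ad w.1 s z) ∧ InW w.2 x y ∧ InW w.2 y z)) (by fun_prop) ?_
    refine PP.ball (l := fun x : (Inst × List (ℕ × ℕ)) × ℕ => x.1.1.1) (r := fun w y =>
      ∀ z ∈ w.1.1.1, ∀ s ∈ w.1.1.2.1, ¬ ((w.2 ≠ y ∧ y ≠ z ∧ w.2 ≠ z) ∧
      (Ad w.1.1 s w.2 ∧ Ad w.1.1 s y ∧ Ad w.1.1 s z) ∧ InW w.1.2 w.2 y ∧ InW w.1.2 y z))
      (by fun_prop) ?_
    refine PP.ball (l := fun x : ((Inst × List (ℕ × ℕ)) × ℕ) × ℕ => x.1.1.1.1) (r := fun w z =>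
      ∀ s ∈ w.1.1.1.2.1, ¬ ((w.1.2 ≠ w.2 ∧ w.2 ≠ z ∧ w.1.2 ≠ z) ∧
      (Ad w.1.1.1 s w.1.2 ∧ Ad w.1.1.1 s w.2 ∧ Ad w.1.1.1 s z) ∧ InW w.1.1.2 w.1.2 w.2 ∧
      InW w.1.1.2 w.2 z)) (by fun_prop) ?_
    refine PP.ball (l := fun x : (((Inst × List (ℕ × ℕ)) × ℕ) × ℕ) × ℕ => x.1.1.1.1.2.1)
      (r := fun w s => ¬ ((w.1.1.2 ≠ w.1.2 ∧ w.1.2 ≠ w.2 ∧ w.1.1.2 ≠ w.2) ∧
      (Ad w.1.1.1.1 s w.1.1.2 ∧ Ad w.1.1.1.1 s w.1.2 ∧ Ad w.1.1.1.1 s w.2) ∧
      InW w.1.1.1.2 w.1.1.2 w.1.2 ∧ InW w.1.1.1.2 w.1.2 w.2)) (by fun_prop) ?_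
    refine PP.not (PP.and ?_ (PP.and ?_ ?_))
    · exact PP.and (PP.ne (by fun_prop) (by fun_prop)) (PP.and (PP.ne (by fun_prop) (by fun_prop))
        (PP.ne (by fun_prop) (by fun_prop)))
    · exact PP.and (pp_Ad (by fun_prop) (by fun_prop) (by fun_prop)) (PP.and
        (pp_Ad (by fun_prop) (by fun_prop) (by fun_prop))
        (pp_Ad (by fun_prop) (by fun_prop) (by fun_prop)))
    · exact PP.and (pp_InW (by fun_prop) (by fun_prop) (by fun_prop))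
        (pp_InW (by fun_prop) (by fun_prop) (by fun_prop))
  · refine PP.ball (l := fun x : Inst × List (ℕ × ℕ) => x.1.1) (r := fun w x => ∀ y ∈ w.1.1,
      ∀ z ∈ w.1.1, (¬ (ShI w.1 x y ∧ ShI w.1 y z ∧ ShI w.1 x z)) ∨
      (InW w.2 x y ∨ InW w.2 y z ∨ InW w.2 x z)) (by fun_prop) ?_
    refine PP.ball (l := fun x : (Inst × List (ℕ × ℕ)) × ℕ => x.1.1.1) (r := fun w y =>
      ∀ z ∈ w.1.1.1, (¬ (ShI w.1.1 w.2 y ∧ ShI w.1.1 y z ∧ ShI w.1.1 w.2 z)) ∨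
      (InW w.1.2 w.2 y ∨ InW w.1.2 y z ∨ InW w.1.2 w.2 z)) (by fun_prop) ?_
    refine PP.ball (l := fun x : ((Inst × List (ℕ × ℕ)) × ℕ) × ℕ => x.1.1.1.1) (r := fun w z =>
      (¬ (ShI w.1.1.1 w.1.2 w.2 ∧ ShI w.1.1.1 w.2 z ∧ ShI w.1.1.1 w.1.2 z)) ∨
      (InW w.1.1.2 w.1.2 w.2 ∨ InW w.1.1.2 w.2 z ∨ InW w.1.1.2 w.1.2 z)) (by fun_prop) ?_
    refine PP.or (PP.not (PP.and ?_ (PP.and ?_ ?_))) (PP.or ?_ (PP.or ?_ ?_))
    · exact pp_ShI (by fun_prop) (by fun_prop) (by fun_prop)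
    · exact pp_ShI (by fun_prop) (by fun_prop) (by fun_prop)
    · exact pp_ShI (by fun_prop) (by fun_prop) (by fun_prop)
    · exact pp_InW (by fun_prop) (by fun_prop) (by fun_prop)
    · exact pp_InW (by fun_prop) (by fun_prop) (by fun_prop)
    · exact pp_InW (by fun_prop) (by fun_prop) (by fun_prop)

theorem of_ver {I : Inst} {W : List (ℕ × ℕ)} (h : Ver I W) : CliqueGraphRecognition I := by
  obtain ⟨h1, h2, h3⟩ := h
  refine ⟨h1, (cliqueGraph_iff_drop h1).2 ⟨InW W, fun x y h => h.symm, ?_, ?_⟩⟩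
  · intro s hs x hx y hy z hz a b c d e f g
    exact h2 x hx y hy z hz s hs ⟨⟨a, b, c⟩, ⟨d, e, f⟩, g⟩
  · intro x hx y hy z hz a b c
    rcases h3 x hx y hy z hz with h | h
    · exact absurd ⟨a, b, c⟩ h
    · exact h

theorem ver_of {I : Inst} (h : CliqueGraphRecognition I) : ∃ W : List (ℕ × ℕ),
    W.Sublist (I.1 ×ˢ I.1) ∧ Ver I W := by
  classical
  obtain ⟨h1, h2⟩ := h
  obtain ⟨D, hsym, hD1, hD2⟩ := (cliqueGraph_iff_drop h1).1 h2
  refine ⟨(I.1 ×ˢ I.1).filter (fun p => decide (D p.1 p.2)), List.filter_sublist, h1, ?_, ?_⟩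
  · rintro x hx y hy z hz s hs ⟨⟨a, b, c⟩, ⟨d, e, f⟩, g1, g2⟩
    have key : ∀ x y, InW ((I.1 ×ˢ I.1).filter (fun p => decide (D p.1 p.2))) x y → D x y := by
      rintro x y (h | h)
      · simpa using (List.mem_filter.1 h).2
      · exact hsym _ _ (by simpa using (List.mem_filter.1 h).2)
    exact hD1 s hs x hx y hy z hz a b c d e f ⟨key _ _ g1, key _ _ g2⟩
  · intro x hx y hy z hz
    by_cases h : ShI I x y ∧ ShI I y z ∧ ShI I x z
    · right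
      have key : ∀ x ∈ I.1, ∀ y ∈ I.1, D x y →
          InW ((I.1 ×ˢ I.1).filter (fun p => decide (D p.1 p.2))) x y := by
        intro x hx y hy h
        exact Or.inl (List.mem_filter.2 ⟨List.mem_product.2 ⟨hx, hy⟩, by simpa using h⟩)
      rcases hD2 x hx y hy z hz h.1 h.2.1 h.2.2 with h | h | h
      · exact Or.inl (key x hx y hy h)
      · exact Or.inr (Or.inl (key y hy z hz h))
      · exact Or.inr (Or.inr (key x hx z hz h))
    · exact Or.inl h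

theorem inNPP : InNPP CliqueGraphRecognition := by
  have hp : NPC.Poly (fun I : Inst => I.1 ×ˢ I.1) := by fun_prop
  obtain ⟨r, hr⟩ := hp.sz_le
  refine inNPP_of_pp pp_ver r (fun I h => ?_) fun _ _ h => of_ver h
  obtain ⟨W, hW, h'⟩ := ver_of h
  exact ⟨W, (sz_sublist hW).trans (hr I), h'⟩

end Pool.Agent.R544.CG
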