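import Pool.Agent.R544.CG.Defs

/-!
# The characterisation of clique graphs by Roberts and Spencer
-/

set_option autoImplicit false

namespace Pool.Agent.R544.CG

variable {V : Type}

/-- An edge covering family of complete sets with the Helly property. -/
def RSFamily (G : SimpleGraph V) (F : Set (Set V)) : Prop :=
  (∀ A ∈ F, G.IsClique A) ∧ (∀ u v, G.Adj u v → ∃ A ∈ F, u ∈ A ∧ v ∈ A) ∧
  ∀ F' ⊆ F, F'.Nonempty → (∀ A ∈ F', ∀ B ∈ F', (A ∩ B).Nonempty) → ∃ v, ∀ A ∈ F', v ∈ A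

theorem rs_of_cliqueGraph {G : SimpleGraph V} (h : IsCliqueGraph G) : ∃ F, RSFamily G F := by
  obtain ⟨W, hW, H, ⟨φ⟩⟩ := h
  have key : ∀ w, ∀ u v, w ∈ (φ u).1 → w ∈ (φ v).1 → u ≠ v → G.Adj u v := by
    intro w u v hu hv hne
    rw [← φ.map_adj_iff]
    exact ⟨fun h => hne (φ.injective h), w, hu, hv⟩
  refine ⟨Set.range fun w : W => {v | w ∈ (φ v).1}, ?_, ?_, ?_⟩
  · rintro A ⟨w, rfl⟩ u hu v hv hne
    exact key w u v hu hv hne
  · intro u v huv
    rw [← φ.map_adj_iff] at huv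
    obtain ⟨-, w, hw1, hw2⟩ := huv
    exact ⟨_, ⟨w, rfl⟩, hw1, hw2⟩
  · intro F' hF' hne hpw
    have hX : H.IsClique {w : W | {v | w ∈ (φ v).1} ∈ F'} := by
      intro w hw w' hw' hne
      obtain ⟨v, hv1, hv2⟩ := hpw _ hw _ hw'
      exact (φ v).2.2.1 hv1 hv2 hne
    obtain ⟨C, hC1, hC2⟩ := (Set.toFinite {C : Set W | H.IsClique C}).exists_le_maximal hX
    obtain ⟨A, hA⟩ := hne
    obtain ⟨w, rfl⟩ := hF' hA
    have hC2' : Maximal H.IsClique C := hC2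
    obtain ⟨v, hv⟩ := φ.surjective ⟨C, ⟨w, hC1 hA⟩, hC2'⟩
    refine ⟨v, fun B hB => ?_⟩
    obtain ⟨w', rfl⟩ := hF' hB
    show w' ∈ (φ v).1
    rw [hv]
    exact hC1 hB

theorem cliqueGraph_of_rs [Finite V] {G : SimpleGraph V} {F : Set (Set V)} (h : RSFamily G F) :
    IsCliqueGraph G := by
  obtain ⟨h1, h2, h3⟩ := h
  let W : Type := {A : Set V // A.Nonempty ∧ (A ∈ F ∨ ∃ v, A = {v})}
  let H : SimpleGraph W :=
    { Adj := fun A B => A ≠ B ∧ (A.1 ∩ B.1).Nonempty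
      symm := ⟨fun _ _ h => ⟨h.1.symm, by rw [Set.inter_comm]; exact h.2⟩⟩
      loopless := ⟨fun _ h => h.1 rfl⟩ }
  let sg : V → W := fun v => ⟨{v}, ⟨v, rfl⟩, Or.inr ⟨v, rfl⟩⟩
  have hcl : ∀ v, H.IsClique {A : W | v ∈ A.1} := fun v A hA B hB hne => ⟨hne, v, hA, hB⟩
  have hmax : ∀ v, Maximal H.IsClique {A : W | v ∈ A.1} := by
    intro v
    refine ⟨hcl v, fun C hC hle A hA => ?_⟩
    have hs : sg v ∈ C := hle (show v ∈ ({v} : Set V) from rfl)
    by_cases he : sg v = A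
    · rw [← he]
      rfl
    · obtain ⟨-, u, hu1, hu2⟩ := hC hs hA he
      have : u = v := hu1
      rw [← this]
      exact hu2
  let f : V → {C : Set W // C.Nonempty ∧ Maximal H.IsClique C} :=
    fun v => ⟨{A : W | v ∈ A.1}, ⟨sg v, rfl⟩, hmax v⟩
  have hinj : Function.Injective f := by
    intro u v huv
    have : sg u ∈ (f v).1 := by
      rw [← huv]
      rfl
    exact (this : v ∈ ({u} : Set V)).symm
  have hsurj : Function.Surjective f := by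
    rintro ⟨C, ⟨A0, hA0⟩, hC⟩
    have hpw : ∀ A ∈ C, ∀ B ∈ C, (A.1 ∩ B.1).Nonempty := by
      intro A hA B hB
      by_cases he : A = B
      · rw [he, Set.inter_self]
        exact B.2.1
      · exact (hC.1 hA hB he).2
    have hv : ∃ v, ∀ A ∈ C, v ∈ A.1 := by
      by_cases hs : ∃ v, sg v ∈ C
      · obtain ⟨v, hv⟩ := hs
        refine ⟨v, fun A hA => ?_⟩
        obtain ⟨u, hu1, hu2⟩ := hpw _ hv _ hA
        have : u = v := hu1
        rw [← this]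
        exact hu2
      · obtain ⟨v, hv⟩ := h3 {A | ∃ B ∈ C, B.1 = A} (by
          rintro A ⟨B, hB, rfl⟩
          rcases B.2.2 with h | ⟨v, h⟩
          · exact h
          · exact absurd ⟨v, by rw [show sg v = B from Subtype.ext h.symm]; exact hB⟩ hs)
          ⟨A0.1, A0, hA0, rfl⟩ (by
          rintro _ ⟨A, hA, rfl⟩ _ ⟨B, hB, rfl⟩
          exact hpw A hA B hB)
        exact ⟨v, fun A hA => hv _ ⟨A, hA, rfl⟩⟩
    obtain ⟨v, hv⟩ := hv
    refine ⟨v, Subtype.ext ?_⟩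
    exact Set.Subset.antisymm (hC.2 (hcl v) fun A hA => hv A hA) fun A hA => hv A hA
  refine ⟨W, inferInstance, H, ⟨⟨Equiv.ofBijective f ⟨hinj, hsurj⟩, ?_⟩⟩⟩
  intro u v
  show (f u ≠ f v ∧ ((f u).1 ∩ (f v).1).Nonempty) ↔ G.Adj u v
  constructor
  · rintro ⟨hne, A, hu, hv⟩
    have huv : u ≠ v := fun h => hne (by rw [h])
    rcases A.2.2 with h | ⟨w, h⟩
    · exact h1 _ h hu hv huv
    · have hu' : u ∈ A.1 := hu
      have hv' : v ∈ A.1 := hv
      rw [h] at hu' hv'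
      exact absurd (hu'.trans hv'.symm) huv
  · intro huv
    refine ⟨fun h => huv.ne (hinj h), ?_⟩
    obtain ⟨A, hA, hu, hv⟩ := h2 u v huv
    exact ⟨⟨A, ⟨u, hu⟩, Or.inl hA⟩, hu, hv⟩

end Pool.Agent.R544.CG
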